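import Pool.Agent.U691.HT.Tag
import Pool.Agent.U691.CE.HW

/-!
# The action of `sl₂` on `TAG(J)`
-/

set_option autoImplicit false
set_option linter.unusedSectionVars false
set_option linter.unusedSimpArgs false

namespace Pool.Agent.U691.HT

open Pool.Agent.U691.CE

variable {F : Type} [Field F] {J : Type} [NonUnitalNonAssocCommRing J] [Module F J]
  [IsScalarTower F J J] [SMulCommClass F J J]

namespace TAG

/-- The action of `x e + y h + z f` on `TAG(J)` through the factor `sl₂` of `sl₂ ⊗ J`. -/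
noncomputable def act (x y z : F) : TAG F J →ₗ[F] TAG F J where
  toFun v := mk ((2 * y) • pe v - (2 * x) • ph v) (x • pf v - z • pe v)
    ((2 * z) • ph v - (2 * y) • pf v) 0
  map_add' v w := by
    ext <;> simp only [pe_mk, ph_mk, pf_mk, pb_mk, pe_add, ph_add, pf_add, pb_add, smul_add,
      add_zero] <;> abel
  map_smul' c v := by
    ext <;> simp only [pe_mk, ph_mk, pf_mk, pb_mk, pe_smul, ph_smul, pf_smul, pb_smul, smul_zero,
      RingHom.id_apply, smul_sub, smul_comm c]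

@[simp] theorem pe_act (x y z : F) (v : TAG F J) :
    pe (act x y z v) = (2 * y) • pe v - (2 * x) • ph v := rfl
@[simp] theorem ph_act (x y z : F) (v : TAG F J) :
    ph (act x y z v) = x • pf v - z • pe v := rfl
@[simp] theorem pf_act (x y z : F) (v : TAG F J) :
    pf (act x y z v) = (2 * z) • ph v - (2 * y) • pf v := rfl
@[simp] theorem pb_act (x y z : F) (v : TAG F J) : pb (act x y z v) = 0 := rfl

/-- The action of an element of `sl₂` on `TAG(J)` through the factor `sl₂` of `sl₂ ⊗ J`: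
`X · (Y ⊗ u) = [X, Y] ⊗ u` and `X · β = 0` for `β ∈ B(J)`. -/
noncomputable def slAct (X : LieAlgebra.SpecialLinear.sl (Fin 2) F) : TAG F J →ₗ[F] TAG F J :=
  act (X.1 0 1) (X.1 0 0) (X.1 1 0)

/-- `X ⊗ u` for a matrix `X` of trace zero -/
def tens (X : LieAlgebra.SpecialLinear.sl (Fin 2) F) (u : J) : TAG F J :=
  mk (X.1 0 1 • u) (X.1 0 0 • u) (X.1 1 0 • u) 0

theorem sl_11 (X : LieAlgebra.SpecialLinear.sl (Fin 2) F) : X.1 1 1 = - X.1 0 0 := by
  have h1 : Matrix.trace X.1 = 0 := X.2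
  rw [Matrix.trace_fin_two] at h1
  linear_combination h1

theorem lie_00 (X Y : LieAlgebra.SpecialLinear.sl (Fin 2) F) :
    (⁅X, Y⁆ : LieAlgebra.SpecialLinear.sl (Fin 2) F).1 0 0 =
      X.1 0 1 * Y.1 1 0 - Y.1 0 1 * X.1 1 0 := by
  rw [LieAlgebra.SpecialLinear.sl_bracket]
  simp only [Matrix.sub_apply, Matrix.mul_apply, Fin.sum_univ_two]
  ring

theorem lie_01 (X Y : LieAlgebra.SpecialLinear.sl (Fin 2) F) :
    (⁅X, Y⁆ : LieAlgebra.SpecialLinear.sl (Fin 2) F).1 0 1 =
      2 * (X.1 0 0 * Y.1 0 1 - X.1 0 1 * Y.1 0 0) := by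
  rw [LieAlgebra.SpecialLinear.sl_bracket]
  simp only [Matrix.sub_apply, Matrix.mul_apply, Fin.sum_univ_two, sl_11]
  ring

theorem lie_10 (X Y : LieAlgebra.SpecialLinear.sl (Fin 2) F) :
    (⁅X, Y⁆ : LieAlgebra.SpecialLinear.sl (Fin 2) F).1 1 0 =
      2 * (X.1 1 0 * Y.1 0 0 - X.1 0 0 * Y.1 1 0) := by
  rw [LieAlgebra.SpecialLinear.sl_bracket]
  simp only [Matrix.sub_apply, Matrix.mul_apply, Fin.sum_univ_two, sl_11]
  ring

theorem slAct_tens (X Y : LieAlgebra.SpecialLinear.sl (Fin 2) F) (u : J) :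
    slAct X (tens Y u) = tens ⁅X, Y⁆ u := by
  unfold slAct tens
  ext
  · simp only [pe_act, pe_mk, ph_mk, lie_01]; module
  · simp only [ph_act, pe_mk, pf_mk, ph_mk, lie_00]; module
  · simp only [pf_act, pf_mk, ph_mk, lie_10]; module
  · rfl

theorem slAct_pb (X : LieAlgebra.SpecialLinear.sl (Fin 2) F) (β : BJ F J) :
    slAct X (mk 0 0 0 β) = 0 := by
  unfold slAct
  ext <;> simp

theorem eq_tens (x : TAG F J) : ∃ e h f : LieAlgebra.SpecialLinear.sl (Fin 2) F,
    x = tens e (pe x) + tens h (ph x) + tens f (pf x) + mk 0 0 0 (pb x) := by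
  refine ⟨⟨!![0, 1; 0, 0], by simp [LieAlgebra.SpecialLinear.sl]⟩,
    ⟨!![1, 0; 0, -1], by simp [LieAlgebra.SpecialLinear.sl, Matrix.trace_fin_two]⟩,
    ⟨!![0, 0; 1, 0], by simp [LieAlgebra.SpecialLinear.sl]⟩, ?_⟩
  unfold tens
  ext <;> simp

variable [CharZero F] [IsCommJordan J]

/-- the formula for the bracket -/
theorem lie_tens (X Y : LieAlgebra.SpecialLinear.sl (Fin 2) F) (u v : J) :
    ⁅tens X u, tens Y v⁆ = tens ⁅X, Y⁆ (u * v) +
      mk 0 0 0 ((2 * Matrix.trace (X.1 * Y.1)) • wdg F u v) := by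
  unfold tens
  ext
  · simp only [pe_lie, pe_mk, ph_mk, pb_mk, pe_add, lie_01, smul_mul_smul_comm, map_zero,
      LinearMap.zero_apply, add_zero, sub_zero]
    module
  · simp only [ph_lie, pe_mk, pf_mk, ph_mk, pb_mk, ph_add, lie_00, smul_mul_smul_comm, map_zero,
      LinearMap.zero_apply, add_zero, sub_zero]
    module
  · simp only [pf_lie, pe_mk, pf_mk, ph_mk, pb_mk, pf_add, lie_10, smul_mul_smul_comm, map_zero,
      LinearMap.zero_apply, add_zero, sub_zero]
    module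
  · simp only [pb_lie, pe_mk, pf_mk, ph_mk, pb_mk, pb_add, map_zero, wdg_smul_left,
      wdg_smul_right, LinearMap.zero_apply, add_zero, zero_add, Matrix.trace_fin_two,
      Matrix.mul_apply, Fin.sum_univ_two, sl_11]
    module

theorem lie_pb_tens (β : BJ F J) (X : LieAlgebra.SpecialLinear.sl (Fin 2) F) (w : J) :
    ⁅(mk 0 0 0 β : TAG F J), tens X w⁆ = tens X (Dm β w) := by
  unfold tens
  ext <;> simp [pe_lie, ph_lie, pf_lie, pb_lie, wdg_zero_left]

theorem lie_pb_pb (β γ : BJ F J) :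
    ⁅(mk 0 0 0 β : TAG F J), (mk 0 0 0 γ : TAG F J)⁆ = mk 0 0 0 (brB β γ) := by
  ext <;> simp [pe_lie, ph_lie, pf_lie, pb_lie, wdg_zero_left]

theorem isDer_act (x y z : F) : IsDer (act x y z : TAG F J →ₗ[F] TAG F J) := by
  intro v w
  ext <;>
  simp only [pe_act, ph_act, pf_act, pb_act, pe_lie, ph_lie, pf_lie, pb_lie, pe_add, ph_add,
    pf_add, pb_add, map_add, map_sub, map_smul, map_zero, mul_add, add_mul, mul_sub, sub_mul,
    wdg_add_left, wdg_add_right, wdg_sub_left, wdg_sub_right, wdg_smul_left, wdg_smul_right,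
    smul_add, smul_sub, LinearMap.zero_apply, mul_smul_comm, smul_mul_assoc, mul_comm] <;>
  module

theorem isDer_slAct (X : LieAlgebra.SpecialLinear.sl (Fin 2) F) :
    IsDer (slAct X : TAG F J →ₗ[F] TAG F J) := isDer_act _ _ _

theorem isSl2_act : IsSl2 (act 1 0 0 : TAG F J →ₗ[F] TAG F J) (act 0 0 1) (act 0 1 0) := by
  refine ⟨fun v => ?_, fun v => ?_, fun v => ?_⟩ <;>
  ext <;>
  simp only [pe_act, ph_act, pf_act, pb_act, pe_add, ph_add, pf_add, pb_add, pe_smul, ph_smul,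
    pf_smul, pb_smul, pe_sub, ph_sub, pf_sub, pb_sub] <;>
  module

/-- the extension of a derivation of `J` to `TAG(J)` -/
noncomputable def ext' (D : J →ₗ[F] J) (hD : ∀ a b, D (a * b) = D a * b + a * D b) :
    TAG F J →ₗ[F] TAG F J where
  toFun v := mk (D (pe v)) (D (ph v)) (D (pf v)) (derB D hD (pb v))
  map_add' v w := by
    ext <;> simp only [pe_mk, ph_mk, pf_mk, pb_mk, pe_add, ph_add, pf_add, pb_add, map_add]
  map_smul' c v := by
    ext <;> simp only [pe_mk, ph_mk, pf_mk, pb_mk, pe_smul, ph_smul, pf_smul, pb_smul, map_smul,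
      RingHom.id_apply]

theorem isDer_ext' (D : J →ₗ[F] J) (hD : ∀ a b, D (a * b) = D a * b + a * D b) :
    IsDer (ext' D hD : TAG F J →ₗ[F] TAG F J) := by
  intro v w
  have h1 : ∀ v : TAG F J, pe (ext' D hD v) = D (pe v) := fun _ => rfl
  have h2 : ∀ v : TAG F J, ph (ext' D hD v) = D (ph v) := fun _ => rfl
  have h3 : ∀ v : TAG F J, pf (ext' D hD v) = D (pf v) := fun _ => rfl
  have h4 : ∀ v : TAG F J, pb (ext' D hD v) = derB D hD (pb v) := fun _ => rfl
  ext <;>
  simp only [h1, h2, h3, h4, pe_lie, ph_lie, pf_lie, pb_lie, pe_add, ph_add, pf_add, pb_add,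
    map_add, map_sub, map_smul, derB_wdg, Dm_derB, brB_derB, hD, smul_add, smul_sub] <;>
  module

end TAG

end Pool.Agent.U691.HT
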