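import Pool.Agent.U691.HT.Tag
import Pool.Agent.U691.KM.Alg

/-!
# The free Jordan algebra as an algebra, and its degree derivation
-/

set_option autoImplicit false
set_option linter.unusedSectionVars false

namespace Pool.Agent.U691.HT

open Pool.Agent.U691.KM

variable (F : Type) [Field F] (d : ℕ)

theorem jordKer_mul {a x : MonoidAlgebra F (FreeMagma (Fin d))} (hx : x ∈ jordKer F d) :
    a * x ∈ jordKer F d ∧ x * a ∈ jordKer F d := by
  unfold jordKer at *
  rw [Submodule.mem_sInf] at *
  rw [Submodule.mem_sInf]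
  exact ⟨fun I hI => (hI.2 a x (hx I hI)).1, fun I hI => (hI.2 a x (hx I hI)).2⟩

theorem jordKer_comm (u v : MonoidAlgebra F (FreeMagma (Fin d))) :
    u * v - v * u ∈ jordKer F d := by
  unfold jordKer
  rw [Submodule.mem_sInf]
  exact fun I hI => (hI.1 u v).1

theorem jordKer_jord (u v : MonoidAlgebra F (FreeMagma (Fin d))) :
    ((u * u) * v) * u - (u * u) * (v * u) ∈ jordKer F d := by
  unfold jordKer
  rw [Submodule.mem_sInf]
  exact fun I hI => (hI.1 u v).2

variable {F d}

/-- the residue class -/
noncomputable def mk (u : MonoidAlgebra F (FreeMagma (Fin d))) : FreeJord F d := (jordKer F d).mkQ u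

theorem mk_surj (x : FreeJord F d) : ∃ u, mk u = x := Submodule.mkQ_surjective _ x

theorem mk_eq {u v : MonoidAlgebra F (FreeMagma (Fin d))} : mk u = mk v ↔ u - v ∈ jordKer F d :=
  Submodule.Quotient.eq _

theorem mk_add (u v : MonoidAlgebra F (FreeMagma (Fin d))) : mk (u + v) = mk u + mk v := rfl

theorem mk_smul (c : F) (u : MonoidAlgebra F (FreeMagma (Fin d))) : mk (c • u) = c • mk u := rfl

noncomputable instance : Mul (FreeJord F d) :=
  ⟨Quotient.map₂ (· * ·) (by
    intro a a' ha b b' hb
    rw [← Quotient.eq_iff_equiv] at ha hb ⊢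
    have ha' : a - a' ∈ jordKer F d := (Submodule.Quotient.eq _).1 ha
    have hb' : b - b' ∈ jordKer F d := (Submodule.Quotient.eq _).1 hb
    refine (Submodule.Quotient.eq (jordKer F d)).2 ?_
    have : a * b - a' * b' = (a - a') * b + a' * (b - b') := by
      rw [sub_mul, mul_sub]; abel
    rw [this]
    exact Submodule.add_mem _ (jordKer_mul F d ha').2 (jordKer_mul F d hb').1)⟩

theorem mk_mul (u v : MonoidAlgebra F (FreeMagma (Fin d))) : mk (u * v) = mk u * mk v := rfl

noncomputable instance : NonUnitalNonAssocCommRing (FreeJord F d) where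
  left_distrib a b c := by
    obtain ⟨a, rfl⟩ := mk_surj a
    obtain ⟨b, rfl⟩ := mk_surj b
    obtain ⟨c, rfl⟩ := mk_surj c
    rw [← mk_add, ← mk_mul, ← mk_mul, ← mk_mul, ← mk_add, mul_add]
  right_distrib a b c := by
    obtain ⟨a, rfl⟩ := mk_surj a
    obtain ⟨b, rfl⟩ := mk_surj b
    obtain ⟨c, rfl⟩ := mk_surj c
    rw [← mk_add, ← mk_mul, ← mk_mul, ← mk_mul, ← mk_add, add_mul]
  zero_mul a := by
    obtain ⟨a, rfl⟩ := mk_surj a
    have : (0 : FreeJord F d) = mk 0 := rfl
    rw [this, ← mk_mul, zero_mul]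
  mul_zero a := by
    obtain ⟨a, rfl⟩ := mk_surj a
    have : (0 : FreeJord F d) = mk 0 := rfl
    rw [this, ← mk_mul, mul_zero]
  mul_comm a b := by
    obtain ⟨a, rfl⟩ := mk_surj a
    obtain ⟨b, rfl⟩ := mk_surj b
    rw [← mk_mul, ← mk_mul, mk_eq]
    exact jordKer_comm F d a b

instance : IsScalarTower F (FreeJord F d) (FreeJord F d) := ⟨fun c a b => by
  obtain ⟨a, rfl⟩ := mk_surj a
  obtain ⟨b, rfl⟩ := mk_surj b
  rw [smul_eq_mul, smul_eq_mul, ← mk_smul, ← mk_mul, ← mk_mul, ← mk_smul, smul_mul_assoc]⟩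

instance : SMulCommClass F (FreeJord F d) (FreeJord F d) := ⟨fun c a b => by
  obtain ⟨a, rfl⟩ := mk_surj a
  obtain ⟨b, rfl⟩ := mk_surj b
  rw [smul_eq_mul, smul_eq_mul, ← mk_smul, ← mk_mul, ← mk_mul, ← mk_smul, mul_smul_comm]⟩

instance : IsCommJordan (FreeJord F d) := ⟨fun a b => by
  obtain ⟨a, rfl⟩ := mk_surj a
  obtain ⟨b, rfl⟩ := mk_surj b
  have h := jordKer_jord F d a b
  rw [← mk_eq] at h
  simp only [mk_mul] at h
  rw [mul_comm (mk a) (mk b), mul_comm (mk b * mk a), mul_comm (mk a) (mk b * (mk a * mk a)),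
    mul_comm (mk b) (mk a * mk a), h]⟩

/-- a nonassociative monomial in the free Jordan algebra -/
noncomputable def mono (F : Type) [Field F] {d : ℕ} (m : FreeMagma (Fin d)) : FreeJord F d :=
  mk (MonoidAlgebra.single m 1)

theorem mono_mul (m m' : FreeMagma (Fin d)) : mono F (m * m') = mono F m * mono F m' := by
  unfold mono
  rw [← mk_mul, MonoidAlgebra.single_mul_single, one_mul]

theorem span_mono : Submodule.span F (Set.range (mono F (d := d))) = ⊤ := by
  rw [eq_top_iff]
  rintro x -
  obtain ⟨u, rfl⟩ := mk_surj x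
  induction u using MonoidAlgebra.induction_linear with
  | zero => exact Submodule.zero_mem _
  | add a b ha hb => rw [mk_add]; exact Submodule.add_mem _ ha hb
  | single m c =>
    have : MonoidAlgebra.single m c = c • (MonoidAlgebra.single m 1 :
      MonoidAlgebra F (FreeMagma (Fin d))) := by simp
    rw [this, mk_smul]
    exact Submodule.smul_mem _ _ (Submodule.subset_span ⟨m, rfl⟩)

/-- the degree derivation of the free nonassociative algebra -/
noncomputable def Nf (F : Type) [Field F] (d : ℕ) : MonoidAlgebra F (FreeMagma (Fin d)) →ₗ[F]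
    MonoidAlgebra F (FreeMagma (Fin d)) :=
  (MonoidAlgebra.basis (FreeMagma (Fin d)) F).constr F
    fun m => ((mdeg m).degree : F) • MonoidAlgebra.single m 1

theorem Nf_single (m : FreeMagma (Fin d)) : Nf F d (MonoidAlgebra.single m 1) =
    ((mdeg m).degree : F) • MonoidAlgebra.single m 1 := by
  unfold Nf
  conv_lhs => rw [← MonoidAlgebra.basis_apply]
  rw [Module.Basis.constr_basis]

theorem Nf_mul (u v : MonoidAlgebra F (FreeMagma (Fin d))) :
    Nf F d (u * v) = Nf F d u * v + u * Nf F d v := by
  induction u using MonoidAlgebra.induction_linear with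
  | zero => simp
  | add a b ha hb =>
    rw [add_mul, map_add, ha, hb, map_add, add_mul, add_mul]
    abel
  | single m c =>
    induction v using MonoidAlgebra.induction_linear with
    | zero => simp
    | add a b ha hb =>
      rw [mul_add, map_add, ha, hb, map_add, mul_add, mul_add]
      abel
    | single m' c' =>
      have h1 : ∀ (m : FreeMagma (Fin d)) (c : F),
          (MonoidAlgebra.single m c : MonoidAlgebra F (FreeMagma (Fin d))) =
          c • MonoidAlgebra.single m 1 := by
        intro m c; simp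
      have h2 : (mdeg (m * m')).degree = (mdeg m).degree + (mdeg m').degree := by
        show (mdeg m + mdeg m').degree = _
        rw [map_add]
      rw [h1 m c, h1 m' c', smul_mul_smul_comm, MonoidAlgebra.single_mul_single, one_mul,
        map_smul, map_smul, map_smul, Nf_single, Nf_single, Nf_single, h2, Nat.cast_add]
      simp only [smul_mul_assoc, mul_smul_comm, MonoidAlgebra.single_mul_single, one_mul,
        smul_smul, ← add_smul]
      congr 1
      ring

theorem jord_lin' [CharZero F] (u w v : MonoidAlgebra F (FreeMagma (Fin d))) :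
    ((u * w + w * u) * v) * u + ((u * u) * v) * w - (u * w + w * u) * (v * u) -
      (u * u) * (v * w) ∈ jordKer F d := by
  have h1 := jordKer_jord F d (u + w) v
  have h2 := jordKer_jord F d (u - w) v
  have h3 := jordKer_jord F d w v
  have h4 : (2 : F) • (((u * w + w * u) * v) * u + ((u * u) * v) * w -
      (u * w + w * u) * (v * u) - (u * u) * (v * w)) ∈ jordKer F d := by
    have h5 : (2 : F) • (((u * w + w * u) * v) * u + ((u * u) * v) * w -
      (u * w + w * u) * (v * u) - (u * u) * (v * w)) =
      ((((u + w) * (u + w)) * v) * (u + w) - ((u + w) * (u + w)) * (v * (u + w))) -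
      ((((u - w) * (u - w)) * v) * (u - w) - ((u - w) * (u - w)) * (v * (u - w))) -
      (2 : F) • (((w * w) * v) * w - (w * w) * (v * w)) := by
      simp only [two_smul, mul_add, add_mul, mul_sub, sub_mul]
      abel
    rw [h5]
    exact Submodule.sub_mem _ (Submodule.sub_mem _ h1 h2) (Submodule.smul_mem _ _ h3)
  have h6 := Submodule.smul_mem (jordKer F d) ((2 : F)⁻¹) h4
  rwa [smul_smul, inv_mul_cancel₀ two_ne_zero, one_smul] at h6

theorem Nf_jordKer [CharZero F] : jordKer F d ≤ (jordKer F d).comap (Nf F d) := by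
  have h : jordKer F d ≤ jordKer F d ⊓ (jordKer F d).comap (Nf F d) := by
    conv_lhs => unfold jordKer
    refine sInf_le ⟨?_, ?_⟩
    · intro u v
      refine ⟨⟨jordKer_comm F d u v, ?_⟩, ⟨jordKer_jord F d u v, ?_⟩⟩
      · rw [SetLike.mem_coe, Submodule.mem_comap, map_sub, Nf_mul, Nf_mul]
        have h1 := jordKer_comm F d (Nf F d u) v
        have h2 := jordKer_comm F d u (Nf F d v)
        have : Nf F d u * v + u * Nf F d v - (Nf F d v * u + v * Nf F d u) =
          (Nf F d u * v - v * Nf F d u) + (u * Nf F d v - Nf F d v * u) := by abel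
        rw [this]
        exact Submodule.add_mem _ h1 h2
      · rw [SetLike.mem_coe, Submodule.mem_comap]
        have h1 := jord_lin' u (Nf F d u) v
        have h2 := jordKer_jord F d u (Nf F d v)
        have h3 := Submodule.add_mem _ h1 h2
        convert h3 using 1
        simp only [map_sub, Nf_mul, mul_add, add_mul]
        abel
    · rintro a x ⟨hx1, hx2⟩
      rw [SetLike.mem_coe, Submodule.mem_comap] at hx2
      refine ⟨⟨(jordKer_mul F d hx1).1, ?_⟩, ⟨(jordKer_mul F d hx1).2, ?_⟩⟩
      · rw [SetLike.mem_coe, Submodule.mem_comap, Nf_mul]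
        exact Submodule.add_mem _ (jordKer_mul F d hx1).1 (jordKer_mul F d hx2).1
      · rw [SetLike.mem_coe, Submodule.mem_comap, Nf_mul]
        exact Submodule.add_mem _ (jordKer_mul F d hx2).2 (jordKer_mul F d hx1).2
  exact h.trans inf_le_right

variable [CharZero F]

/-- the degree derivation of the free Jordan algebra -/
noncomputable def NJ (F : Type) [Field F] [CharZero F] (d : ℕ) : FreeJord F d →ₗ[F] FreeJord F d :=
  Submodule.mapQ _ _ (Nf F d) Nf_jordKer

theorem NJ_mk (u : MonoidAlgebra F (FreeMagma (Fin d))) : NJ F d (mk u) = mk (Nf F d u) := rfl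

theorem NJ_mul (a b : FreeJord F d) : NJ F d (a * b) = NJ F d a * b + a * NJ F d b := by
  obtain ⟨a, rfl⟩ := mk_surj a
  obtain ⟨b, rfl⟩ := mk_surj b
  rw [← mk_mul, NJ_mk, Nf_mul, mk_add, mk_mul, mk_mul, NJ_mk, NJ_mk]

theorem NJ_mono (m : FreeMagma (Fin d)) :
    NJ F d (mono F m) = ((mdeg m).degree : F) • mono F m := by
  unfold mono
  rw [NJ_mk, Nf_single, mk_smul]

end Pool.Agent.U691.HT
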