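import Pool.Agent.U691.HT.Act
import Pool.Agent.U691.HT.Free
import Pool.Agent.U691.CE.Count

/-!
# A homogeneous basis of `TAG(Jord(V))`, `dim V = 3`
-/

set_option autoImplicit false
set_option linter.unusedSectionVars false

namespace Pool.Agent.U691.HT

open Pool.Agent.U691.CE Pool.Agent.U691.KM

variable (F : Type) [Field F]

/-- the index set of a basis of the free Jordan algebra consisting of monomials -/
noncomputable def IJ : Type := (exists_linearIndependent' F (mono F (d := 3))).choose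

/-- the monomials of the basis -/
noncomputable def aJ : IJ F → FreeMagma (Fin 3) :=
  (exists_linearIndependent' F (mono F (d := 3))).choose_spec.choose

theorem aJ_inj : Function.Injective (aJ F) :=
  (exists_linearIndependent' F (mono F (d := 3))).choose_spec.choose_spec.1

/-- the basis of the free Jordan algebra -/
noncomputable def bJ : Module.Basis (IJ F) F (FreeJord F 3) :=
  Module.Basis.mk (v := mono F ∘ aJ F)
    (exists_linearIndependent' F (mono F (d := 3))).choose_spec.choose_spec.2.2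
    ((exists_linearIndependent' F (mono F (d := 3))).choose_spec.choose_spec.2.1.trans
      span_mono).ge

theorem bJ_apply (j : IJ F) : bJ F j = mono F (aJ F j) := by
  exact Module.Basis.mk_apply _ _ j

/-- the elements `m ∧ m'`, `m, m'` monomials -/
noncomputable def wm (p : FreeMagma (Fin 3) × FreeMagma (Fin 3)) : BJ F (FreeJord F 3) :=
  wdg F (mono F p.1) (mono F p.2)

theorem span_wm : Submodule.span F (Set.range (wm F)) = ⊤ := by
  rw [eq_top_iff]
  rintro x -
  induction x using BJ_ind with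
  | h1 u v =>
    have hu : u ∈ Submodule.span F (Set.range (mono F (d := 3))) := by
      rw [span_mono]; trivial
    have hv : v ∈ Submodule.span F (Set.range (mono F (d := 3))) := by
      rw [span_mono]; trivial
    induction hu using Submodule.span_induction with
    | mem x hx =>
      obtain ⟨m, rfl⟩ := hx
      induction hv using Submodule.span_induction with
      | mem y hy =>
        obtain ⟨m', rfl⟩ := hy
        exact Submodule.subset_span ⟨(m, m'), rfl⟩
      | zero => rw [wdg_zero_right]; exact Submodule.zero_mem _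
      | add x y _ _ hx hy => rw [wdg_add_right]; exact Submodule.add_mem _ hx hy
      | smul c x _ hx => rw [wdg_smul_right]; exact Submodule.smul_mem _ _ hx
    | zero => rw [wdg_zero_left]; exact Submodule.zero_mem _
    | add x y _ _ hx hy => rw [wdg_add_left]; exact Submodule.add_mem _ hx hy
    | smul c x _ hx => rw [wdg_smul_left]; exact Submodule.smul_mem _ _ hx
  | h2 x y hx hy => exact Submodule.add_mem _ hx hy

/-- the index set of a basis of `B(J)` -/
noncomputable def IB : Type := (exists_linearIndependent' F (wm F)).choose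

/-- the pairs of monomials of the basis of `B(J)` -/
noncomputable def aB : IB F → FreeMagma (Fin 3) × FreeMagma (Fin 3) :=
  (exists_linearIndependent' F (wm F)).choose_spec.choose

theorem aB_inj : Function.Injective (aB F) :=
  (exists_linearIndependent' F (wm F)).choose_spec.choose_spec.1

/-- the basis of `B(J)` -/
noncomputable def bB : Module.Basis (IB F) F (BJ F (FreeJord F 3)) :=
  Module.Basis.mk (v := wm F ∘ aB F)
    (exists_linearIndependent' F (wm F)).choose_spec.choose_spec.2.2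
    ((exists_linearIndependent' F (wm F)).choose_spec.choose_spec.2.1.trans (span_wm F)).ge

theorem bB_apply (j : IB F) : bB F j = wdg F (mono F (aB F j).1) (mono F (aB F j).2) := by
  exact Module.Basis.mk_apply _ _ j

/-- the index set of the basis of `TAG(J)` -/
abbrev IT : Type := (IJ F ⊕ (IJ F ⊕ IJ F)) ⊕ IB F

/-- the basis of `TAG(J)` -/
noncomputable def bT : Module.Basis (IT F) F (TAG F (FreeJord F 3)) :=
  ((bJ F).prod ((bJ F).prod (bJ F))).prod (bB F)

/-- degree of a monomial -/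
noncomputable def fd (m : FreeMagma (Fin 3)) : ℕ := (mdeg m).degree

theorem fd_pos (m : FreeMagma (Fin 3)) : 1 ≤ fd m := by
  unfold fd
  induction m with
  | ih1 i =>
    show 1 ≤ (Finsupp.single i 1 : Fin 3 →₀ ℕ).degree
    simp
  | ih2 a b ha hb =>
    show 1 ≤ (mdeg a + mdeg b).degree
    rw [map_add]
    omega

/-- the degrees of the basis elements -/
noncomputable def dT : IT F → ℤ :=
  Sum.elim (Sum.elim (fun j => fd (aJ F j)) (Sum.elim (fun j => fd (aJ F j))
    (fun j => fd (aJ F j)))) (fun j => fd (aB F j).1 + fd (aB F j).2)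

/-- the weights of the basis elements -/
def wT : IT F → ℤ := Sum.elim (Sum.elim (fun _ => 1) (Sum.elim (fun _ => 0) (fun _ => -1)))
  (fun _ => 0)

open Classical in
noncomputable instance : LinearOrder (IT F) := linearOrderOfSTO WellOrderingRel

theorem finite_fd (n : ℕ) : {m : FreeMagma (Fin 3) | fd m ≤ n}.Finite := by
  have h : {m : FreeMagma (Fin 3) | fd m ≤ n} ⊆
      ⋃ i ∈ Finset.range (n + 1), {m : FreeMagma (Fin 3) | (mdeg m).degree = i} := by
    intro m hm
    simp only [Set.mem_iUnion]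
    exact ⟨fd m, Finset.mem_range.2 (Nat.lt_succ_of_le hm), rfl⟩
  exact (Set.Finite.biUnion (Finset.finite_toSet _) fun i _ => finite_mono i).subset h

theorem finite_aJ (n : ℕ) : {j : IJ F | fd (aJ F j) ≤ n}.Finite :=
  (finite_fd n).preimage (aJ_inj F).injOn

theorem finite_aB (n : ℕ) : {j : IB F | fd (aB F j).1 + fd (aB F j).2 ≤ n}.Finite := by
  have h : {j : IB F | fd (aB F j).1 + fd (aB F j).2 ≤ n} ⊆
      aB F ⁻¹' ({m : FreeMagma (Fin 3) | fd m ≤ n} ×ˢ {m : FreeMagma (Fin 3) | fd m ≤ n}) := by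
    intro j hj
    have hj' : fd (aB F j).1 + fd (aB F j).2 ≤ n := hj
    exact ⟨by show fd (aB F j).1 ≤ n; omega, by show fd (aB F j).2 ≤ n; omega⟩
  exact (((finite_fd n).prod (finite_fd n)).preimage (aB_inj F).injOn).subset h

variable [CharZero F]

theorem bT_1 (j : IJ F) : bT F (Sum.inl (Sum.inl j)) = TAG.mk (mono F (aJ F j)) 0 0 0 := by
  have : bT F (Sum.inl (Sum.inl j)) =
    (((bJ F).prod ((bJ F).prod (bJ F))).prod (bB F) (Sum.inl (Sum.inl j)) : _) := rfl
  rw [this]
  ext <;> simp [bJ_apply, TAG.pe, TAG.ph, TAG.pf, TAG.pb, TAG.mk]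

theorem bT_2 (j : IJ F) : bT F (Sum.inl (Sum.inr (Sum.inl j))) =
    TAG.mk 0 (mono F (aJ F j)) 0 0 := by
  have : bT F (Sum.inl (Sum.inr (Sum.inl j))) =
    (((bJ F).prod ((bJ F).prod (bJ F))).prod (bB F) (Sum.inl (Sum.inr (Sum.inl j))) : _) := rfl
  rw [this]
  ext <;> simp [bJ_apply, TAG.pe, TAG.ph, TAG.pf, TAG.pb, TAG.mk]

theorem bT_3 (j : IJ F) : bT F (Sum.inl (Sum.inr (Sum.inr j))) =
    TAG.mk 0 0 (mono F (aJ F j)) 0 := by
  have : bT F (Sum.inl (Sum.inr (Sum.inr j))) =
    (((bJ F).prod ((bJ F).prod (bJ F))).prod (bB F) (Sum.inl (Sum.inr (Sum.inr j))) : _) := rfl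
  rw [this]
  ext <;> simp [bJ_apply, TAG.pe, TAG.ph, TAG.pf, TAG.pb, TAG.mk]

theorem bT_4 (j : IB F) : bT F (Sum.inr j) =
    TAG.mk 0 0 0 (wdg F (mono F (aB F j).1) (mono F (aB F j).2)) := by
  have : bT F (Sum.inr j) =
    (((bJ F).prod ((bJ F).prod (bJ F))).prod (bB F) (Sum.inr j) : _) := rfl
  rw [this]
  ext <;> simp [bB_apply, TAG.pe, TAG.ph, TAG.pf, TAG.pb, TAG.mk]

/-- the degree derivation of `TAG(J)` -/
noncomputable def NT : TAG F (FreeJord F 3) →ₗ[F] TAG F (FreeJord F 3) :=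
  TAG.ext' (NJ F 3) NJ_mul

theorem NT_mk (a b c : FreeJord F 3) (β : BJ F (FreeJord F 3)) : NT F (TAG.mk a b c β) =
    TAG.mk (NJ F 3 a) (NJ F 3 b) (NJ F 3 c) (derB (NJ F 3) NJ_mul β) := rfl

theorem NT_bT (j : IT F) : NT F (bT F j) = (dT F j : F) • bT F j := by
  rcases j with (j | j | j) | j
  · rw [bT_1, NT_mk, NJ_mono]
    ext <;> simp [dT, fd]
  · rw [bT_2, NT_mk, NJ_mono]
    ext <;> simp [dT, fd]
  · rw [bT_3, NT_mk, NJ_mono]
    ext <;> simp [dT, fd]
  · rw [bT_4, NT_mk, derB_wdg, NJ_mono, NJ_mono, wdg_smul_left, wdg_smul_right, ← add_smul]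
    ext <;> simp [dT, fd]

/-- the weight derivation of `TAG(J)` -/
theorem HT_bT (j : IT F) : TAG.act (0 : F) 1 0 (bT F j) = ((2 * wT F j : ℤ) : F) • bT F j := by
  rcases j with (j | j | j) | j
  · rw [bT_1]
    ext <;> simp only [wT, Sum.elim_inl, TAG.pe_act, TAG.ph_act, TAG.pf_act, TAG.pb_act,
      TAG.pe_mk, TAG.ph_mk, TAG.pf_mk, TAG.pb_mk, TAG.pe_smul, TAG.ph_smul, TAG.pf_smul,
      TAG.pb_smul] <;> push_cast <;> module
  · rw [bT_2]
    ext <;> simp only [wT, Sum.elim_inl, Sum.elim_inr, TAG.pe_act, TAG.ph_act, TAG.pf_act,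
      TAG.pb_act, TAG.pe_mk, TAG.ph_mk, TAG.pf_mk, TAG.pb_mk, TAG.pe_smul, TAG.ph_smul,
      TAG.pf_smul, TAG.pb_smul] <;> push_cast <;> module
  · rw [bT_3]
    ext <;> simp only [wT, Sum.elim_inl, Sum.elim_inr, TAG.pe_act, TAG.ph_act, TAG.pf_act,
      TAG.pb_act, TAG.pe_mk, TAG.ph_mk, TAG.pf_mk, TAG.pb_mk, TAG.pe_smul, TAG.ph_smul,
      TAG.pf_smul, TAG.pb_smul] <;> push_cast <;> module
  · rw [bT_4]
    ext <;> simp only [wT, Sum.elim_inr, TAG.pe_act, TAG.ph_act, TAG.pf_act,
      TAG.pb_act, TAG.pe_mk, TAG.ph_mk, TAG.pf_mk, TAG.pb_mk, TAG.pe_smul, TAG.ph_smul,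
      TAG.pf_smul, TAG.pb_smul] <;> push_cast <;> module

/-- the data for `TAG(Jord(V))` -/
noncomputable def XT : Dat F (TAG F (FreeJord F 3)) (IT F) where
  b := bT F
  e := TAG.act 1 0 0
  f := TAG.act 0 0 1
  h := TAG.act 0 1 0
  N := NT F
  de := TAG.isDer_act _ _ _
  df := TAG.isDer_act _ _ _
  dh := TAG.isDer_act _ _ _
  dN := TAG.isDer_ext' _ _
  sl := TAG.isSl2_act
  Ne v := by
    have h : ∀ a b c β, NT F (TAG.mk a b c β) =
      TAG.mk (NJ F 3 a) (NJ F 3 b) (NJ F 3 c) (derB (NJ F 3) NJ_mul β) := NT_mk F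
    ext
    · show NJ F 3 (_ - _) = (2 * 0 : F) • NJ F 3 v.pe - (2 * 1 : F) • NJ F 3 v.ph
      rw [map_sub, map_smul, map_smul]
    · show NJ F 3 (_ - _) = (1 : F) • NJ F 3 v.pf - (0 : F) • NJ F 3 v.pe
      rw [map_sub, map_smul, map_smul]
    · show NJ F 3 (_ - _) = (2 * 0 : F) • NJ F 3 v.ph - (2 * 0 : F) • NJ F 3 v.pf
      rw [map_sub, map_smul, map_smul]
    · show derB (NJ F 3) NJ_mul 0 = 0
      rw [map_zero]
  Nf v := by
    ext
    · show NJ F 3 (_ - _) = (2 * 0 : F) • NJ F 3 v.pe - (2 * 0 : F) • NJ F 3 v.ph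
      rw [map_sub, map_smul, map_smul]
    · show NJ F 3 (_ - _) = (0 : F) • NJ F 3 v.pf - (1 : F) • NJ F 3 v.pe
      rw [map_sub, map_smul, map_smul]
    · show NJ F 3 (_ - _) = (2 * 1 : F) • NJ F 3 v.ph - (2 * 0 : F) • NJ F 3 v.pf
      rw [map_sub, map_smul, map_smul]
    · show derB (NJ F 3) NJ_mul 0 = 0
      rw [map_zero]
  deg := dT F
  hw j := 2 * wT F j
  hdeg := NT_bT F
  hhw := HT_bT F
  pos j := by
    rcases j with (j | j | j) | j
    · have := fd_pos (aJ F j); simp only [dT, Sum.elim_inl]; omega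
    · have := fd_pos (aJ F j); simp only [dT, Sum.elim_inl, Sum.elim_inr]; omega
    · have := fd_pos (aJ F j); simp only [dT, Sum.elim_inl, Sum.elim_inr]; omega
    · have := fd_pos (aB F j).1; simp only [dT, Sum.elim_inr]; omega
  bd1 j := by
    rcases j with (j | j | j) | j
    · have := fd_pos (aJ F j); simp only [dT, wT, Sum.elim_inl]; omega
    · have := fd_pos (aJ F j); simp only [dT, wT, Sum.elim_inl, Sum.elim_inr]; omega
    · have := fd_pos (aJ F j); simp only [dT, wT, Sum.elim_inl, Sum.elim_inr]; omega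
    · have := fd_pos (aB F j).1; simp only [dT, wT, Sum.elim_inr]; omega
  bd2 j := by
    rcases j with (j | j | j) | j
    · have := fd_pos (aJ F j); simp only [dT, wT, Sum.elim_inl]; omega
    · have := fd_pos (aJ F j); simp only [dT, wT, Sum.elim_inl, Sum.elim_inr]; omega
    · have := fd_pos (aJ F j); simp only [dT, wT, Sum.elim_inl, Sum.elim_inr]; omega
    · have := fd_pos (aB F j).1; simp only [dT, wT, Sum.elim_inr]; omega
  fin n := by
    have h1 := finite_aJ F n.toNat
    have h2 := finite_aB F n.toNat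
    have h : {j : IT F | dT F j ≤ n} ⊆
        (Sum.inl ∘ Sum.inl) '' {j : IJ F | fd (aJ F j) ≤ n.toNat} ∪
        (Sum.inl ∘ Sum.inr ∘ Sum.inl) '' {j : IJ F | fd (aJ F j) ≤ n.toNat} ∪
        (Sum.inl ∘ Sum.inr ∘ Sum.inr) '' {j : IJ F | fd (aJ F j) ≤ n.toNat} ∪
        Sum.inr '' {j : IB F | fd (aB F j).1 + fd (aB F j).2 ≤ n.toNat} := by
      intro j hj
      have hj' : dT F j ≤ n := hj
      rcases j with (j | j | j) | j
      · simp only [dT, Sum.elim_inl] at hj'
        exact Or.inl (Or.inl (Or.inl ⟨j, by show fd (aJ F j) ≤ _; omega, rfl⟩))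
      · simp only [dT, Sum.elim_inl, Sum.elim_inr] at hj'
        exact Or.inl (Or.inl (Or.inr ⟨j, by show fd (aJ F j) ≤ _; omega, rfl⟩))
      · simp only [dT, Sum.elim_inl, Sum.elim_inr] at hj'
        exact Or.inl (Or.inr ⟨j, by show fd (aJ F j) ≤ _; omega, rfl⟩)
      · simp only [dT, Sum.elim_inr] at hj'
        exact Or.inr ⟨j, by show fd (aB F j).1 + fd (aB F j).2 ≤ _; omega, rfl⟩
    exact ((((h1.image _).union (h1.image _)).union (h1.image _)).union (h2.image _)).subset h

end Pool.Agent.U691.HT
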