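import Pool.Agent.U691.HT.Num

/-!
# The homology of `TAG(Jord(V))`, `dim V = 3`: conclusion
-/

set_option autoImplicit false
set_option linter.unusedSectionVars false
set_option linter.unusedSimpArgs false

namespace Pool.Agent.U691.HT

open Pool.Agent.U691.CE Pool.Agent.U691.KM

variable (F : Type) [Field F] [CharZero F]

theorem fd_mul (a b : FreeMagma (Fin 3)) : fd (a * b) = fd a + fd b := by
  show (mdeg a + mdeg b).degree = _
  rw [map_add]
  rfl

theorem fd_of (i : Fin 3) : fd (FreeMagma.of i) = 1 := by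
  show (Finsupp.single i 1 : Fin 3 →₀ ℕ).degree = 1
  simp

theorem fd_one {m : FreeMagma (Fin 3)} (h : fd m = 1) : ∃ i, m = FreeMagma.of i := by
  cases m with
  | of i => exact ⟨i, rfl⟩
  | mul a b =>
    have h1 : fd (a * b) = 1 := h
    rw [fd_mul] at h1
    have h2 := fd_pos a
    have h3 := fd_pos b
    omega

theorem fd_two {m : FreeMagma (Fin 3)} (h : 2 ≤ fd m) : ∃ a b, m = a * b := by
  cases m with
  | of i => rw [fd_of] at h; omega
  | mul a b => exact ⟨a, b, rfl⟩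

/-- the index of a generator -/
def gi : FreeMagma (Fin 3) → Fin 3
  | FreeMagma.of i => i
  | FreeMagma.mul _ _ => 0

/-- the coefficient of the generator `x_i` -/
noncomputable def coI (i : Fin 3) : FreeJord F 3 →ₗ[F] F where
  toFun x := (phiJ F x).coeff (FreeMonoid.of i)
  map_add' x y := by
    rw [map_add, MonoidAlgebra.coeff_add, Finsupp.add_apply]
  map_smul' c x := by
    rw [map_smul, MonoidAlgebra.coeff_smul_apply, RingHom.id_apply]

theorem coI_of (i i' : Fin 3) : coI F i (mono F (FreeMagma.of i')) = if i' = i then 1 else 0 := by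
  show (phiJ F (mono F (FreeMagma.of i'))).coeff (FreeMonoid.of i) = _
  have h5 : phiJ F (mono F (FreeMagma.of i')) = jm F (FreeMagma.of i') := by
    unfold mono mk
    rw [phiJ_mk, Jm_single]
  rw [h5]
  show (MonoidAlgebra.single (FreeMonoid.of i') 1 : FA F).coeff (FreeMonoid.of i) = _
  classical
  rw [MonoidAlgebra.coeff_single, Finsupp.single_apply]
  by_cases h : i' = i
  · rw [if_pos h, if_pos (by rw [h])]
  · rw [if_neg h, if_neg (fun h' => h (FreeMonoid.of_injective h'))]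

theorem ex_gen (i : Fin 3) : ∃ j : IJ F, aJ F j = FreeMagma.of i := by
  by_contra hcon
  push Not at hcon
  have h1 := mono_mem F (FreeMagma.of i)
  have h2 : Submodule.span F (Set.range fun j : {j : IJ F // fd (aJ F j) = fd (FreeMagma.of i)} =>
      bJ F j.1) ≤ LinearMap.ker (coI F i) := by
    rw [Submodule.span_le]
    rintro _ ⟨⟨j, hj⟩, rfl⟩
    rw [fd_of] at hj
    obtain ⟨i', hi'⟩ := fd_one hj
    show coI F i (bJ F j) = 0
    rw [bJ_apply, hi', coI_of, if_neg]
    rintro rfl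
    exact hcon j hi'
  have h3 : coI F i (mono F (FreeMagma.of i)) = 0 := h2 h1
  rw [coI_of, if_pos rfl] at h3
  exact one_ne_zero h3

theorem Adim_one : Adim F 1 = 3 := by
  rw [← card_sub F (by norm_num)]
  choose g hg using ex_gen F
  have h1 : Function.Bijective (fun i : Fin 3 => (⟨g i, by rw [hg, fd_of]⟩ :
      {j : IJ F // fd (aJ F j) = 1})) := by
    constructor
    · intro i i' h
      have h2 : g i = g i' := congrArg Subtype.val h
      have h3 := congrArg (aJ F) h2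
      rw [hg, hg] at h3
      exact congrArg gi h3
    · rintro ⟨j, hj⟩
      obtain ⟨i, hi⟩ := fd_one hj
      refine ⟨i, Subtype.ext (aJ_inj F ?_)⟩
      rw [hg, hi]
  rw [← Nat.card_eq_of_bijective _ h1]
  simp

/-- the span of the brackets -/
noncomputable def GG : Submodule F (TAG F (FreeJord F 3)) :=
  Submodule.span F {x | ∃ y z : TAG F (FreeJord F 3), x = ⁅y, z⁆}

theorem lie_GG (y z : TAG F (FreeJord F 3)) : ⁅y, z⁆ ∈ GG F := Submodule.subset_span ⟨y, z, rfl⟩

theorem GG_1 (a b : FreeJord F 3) : TAG.mk (a * b) 0 0 0 ∈ GG F := by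
  have h := Submodule.smul_mem _ ((2 : F)⁻¹) (lie_GG F (TAG.mk 0 a 0 0) (TAG.mk b 0 0 0))
  convert h using 1
  ext <;> simp [TAG.pe_lie, TAG.ph_lie, TAG.pf_lie, TAG.pb_lie, wdg_zero_left, wdg_zero_right]

theorem GG_3 (a b : FreeJord F 3) : TAG.mk 0 0 (a * b) 0 ∈ GG F := by
  have h := Submodule.smul_mem _ ((2 : F)⁻¹) (lie_GG F (TAG.mk 0 0 a 0) (TAG.mk 0 b 0 0))
  convert h using 1
  ext <;> simp [TAG.pe_lie, TAG.ph_lie, TAG.pf_lie, TAG.pb_lie, wdg_zero_left, wdg_zero_right]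

theorem GG_2 (a b : FreeJord F 3) : TAG.mk 0 (a * b) 0 0 ∈ GG F := by
  have h := Submodule.smul_mem _ ((2 : F)⁻¹) (Submodule.add_mem _
    (lie_GG F (TAG.mk a 0 0 0) (TAG.mk 0 0 b 0)) (lie_GG F (TAG.mk b 0 0 0) (TAG.mk 0 0 a 0)))
  convert h using 1
  ext
  · simp [TAG.pe_lie, TAG.ph_lie, TAG.pf_lie, TAG.pb_lie, wdg_zero_left, wdg_zero_right]
  · simp only [TAG.ph_lie, TAG.ph_smul, TAG.ph_add, TAG.ph_mk, TAG.pe_mk, TAG.pf_mk, TAG.pb_mk,
      map_zero, mul_zero, zero_mul, sub_zero, add_zero, LinearMap.zero_apply, mul_comm b a]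
    module
  · simp [TAG.pe_lie, TAG.ph_lie, TAG.pf_lie, TAG.pb_lie, wdg_zero_left, wdg_zero_right]
  · simp only [TAG.pb_lie, TAG.pb_smul, TAG.pb_add, TAG.ph_mk, TAG.pe_mk, TAG.pf_mk, TAG.pb_mk,
      map_zero, wdg_zero_left, add_zero, smul_zero, wdg_swap b a]
    module

theorem GG_4 (a b : FreeJord F 3) : TAG.mk 0 0 0 (wdg F a b) ∈ GG F := by
  have h := Submodule.smul_mem _ ((4 : F)⁻¹) (Submodule.sub_mem _
    (lie_GG F (TAG.mk a 0 0 0) (TAG.mk 0 0 b 0)) (lie_GG F (TAG.mk b 0 0 0) (TAG.mk 0 0 a 0)))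
  convert h using 1
  ext
  · simp [TAG.pe_lie, TAG.ph_lie, TAG.pf_lie, TAG.pb_lie, wdg_zero_left, wdg_zero_right]
  · simp only [TAG.ph_lie, TAG.ph_smul, TAG.ph_sub, TAG.ph_mk, TAG.pe_mk, TAG.pf_mk, TAG.pb_mk,
      map_zero, mul_zero, zero_mul, sub_zero, add_zero, LinearMap.zero_apply, mul_comm b a]
    module
  · simp [TAG.pe_lie, TAG.ph_lie, TAG.pf_lie, TAG.pb_lie, wdg_zero_left, wdg_zero_right]
  · simp only [TAG.pb_lie, TAG.pb_smul, TAG.pb_sub, TAG.ph_mk, TAG.pe_mk, TAG.pf_mk, TAG.pb_mk,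
      map_zero, wdg_zero_left, add_zero, smul_zero, wdg_swap b a]
    module

theorem bT_GG (j : IT F) (hj : 2 ≤ dT F j) : bT F j ∈ GG F := by
  rcases j with (j | j | j) | j
  · have h : 2 ≤ fd (aJ F j) := by simpa [dT] using hj
    obtain ⟨a, b, hab⟩ := fd_two h
    rw [bT_1, hab, mono_mul]
    exact GG_1 F _ _
  · have h : 2 ≤ fd (aJ F j) := by simpa [dT] using hj
    obtain ⟨a, b, hab⟩ := fd_two h
    rw [bT_2, hab, mono_mul]
    exact GG_2 F _ _
  · have h : 2 ≤ fd (aJ F j) := by simpa [dT] using hj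
    obtain ⟨a, b, hab⟩ := fd_two h
    rw [bT_3, hab, mono_mul]
    exact GG_3 F _ _
  · rw [bT_4]
    exact GG_4 F _ _

/-- the numbers of basis elements of degree one -/
theorem cnt_zero_one (i : ℤ) : (XT F).cnt 0 1 i = 0 := by
  unfold Dat.cnt
  have : IsEmpty {s : Finset (IT F) // s.card = 0 ∧ gs (XT F).c s = ![(1 : ℤ), i]} := by
    constructor
    rintro ⟨s, h1, h2⟩
    rw [Dat.gs_eq] at h2
    rw [Finset.card_eq_zero] at h1
    subst h1
    simp at h2
  exact Nat.card_of_isEmpty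

theorem cnt_one_one (i : ℤ) : (XT F).cnt 1 1 (2 * i) =
    Nat.card {j : IT F // dT F j = 1 ∧ wT F j = i} := by
  unfold Dat.cnt
  symm
  apply Nat.card_eq_of_bijective (fun j : {j : IT F // dT F j = 1 ∧ wT F j = i} =>
    (⟨{j.1}, by
      refine ⟨Finset.card_singleton _, ?_⟩
      have h := (XT F).gs_eq {j.1} 1 (2 * i)
      rw [h, Finset.sum_singleton, Finset.sum_singleton]
      exact ⟨j.2.1, congrArg (fun t : ℤ => 2 * t) j.2.2⟩⟩ :
      {s : Finset (IT F) // s.card = 1 ∧ gs (XT F).c s = ![(1 : ℤ), 2 * i]}))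
  constructor
  · intro j j' h
    have h1 := congrArg Subtype.val h
    exact Subtype.ext (Finset.singleton_injective h1)
  · rintro ⟨s, h1, h2⟩
    obtain ⟨j, rfl⟩ := Finset.card_eq_one.1 h1
    rw [Dat.gs_eq, Finset.sum_singleton, Finset.sum_singleton] at h2
    refine ⟨⟨j, h2.1, ?_⟩, rfl⟩
    have h3 : 2 * wT F j = 2 * i := h2.2
    omega

theorem card_w1 : Nat.card {j : IT F // dT F j = 1 ∧ wT F j = 1} = 3 := by
  rw [← Adim_one F, ← card_sub F (by norm_num)]
  symm
  apply Nat.card_eq_of_bijective (fun j : {j : IJ F // fd (aJ F j) = 1} =>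
    (⟨Sum.inl (Sum.inl j.1), by
      refine ⟨?_, rfl⟩
      show ((fd (aJ F j.1) : ℕ) : ℤ) = 1
      rw [j.2]; rfl⟩ : {j : IT F // dT F j = 1 ∧ wT F j = 1}))
  constructor
  · intro j j' h
    have h1 := congrArg Subtype.val h
    exact Subtype.ext (Sum.inl.inj (Sum.inl.inj h1))
  · rintro ⟨j, h1, h2⟩
    rcases j with (j | j | j) | j
    · have h3 : ((fd (aJ F j) : ℕ) : ℤ) = 1 := h1
      exact ⟨⟨j, by exact_mod_cast h3⟩, rfl⟩
    · have h3 : (0 : ℤ) = 1 := h2
      omega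
    · have h3 : (-1 : ℤ) = 1 := h2
      omega
    · have h3 : (0 : ℤ) = 1 := h2
      omega

theorem card_w0 : Nat.card {j : IT F // dT F j = 1 ∧ wT F j = 0} = 3 := by
  rw [← Adim_one F, ← card_sub F (by norm_num)]
  symm
  apply Nat.card_eq_of_bijective (fun j : {j : IJ F // fd (aJ F j) = 1} =>
    (⟨Sum.inl (Sum.inr (Sum.inl j.1)), by
      refine ⟨?_, rfl⟩
      show ((fd (aJ F j.1) : ℕ) : ℤ) = 1
      rw [j.2]; rfl⟩ : {j : IT F // dT F j = 1 ∧ wT F j = 0}))
  constructor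
  · intro j j' h
    have h1 := congrArg Subtype.val h
    exact Subtype.ext (Sum.inl.inj (Sum.inr.inj (Sum.inl.inj h1)))
  · rintro ⟨j, h1, h2⟩
    rcases j with (j | j | j) | j
    · have h3 : (1 : ℤ) = 0 := h2
      omega
    · have h3 : ((fd (aJ F j) : ℕ) : ℤ) = 1 := h1
      exact ⟨⟨j, by exact_mod_cast h3⟩, rfl⟩
    · have h3 : (-1 : ℤ) = 0 := h2
      omega
    · have h3 : ((fd (aB F j).1 : ℕ) : ℤ) + ((fd (aB F j).2 : ℕ) : ℤ) = 1 := h1
      have h4 := fd_pos (aB F j).1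
      have h5 := fd_pos (aB F j).2
      omega

theorem card_w2 : Nat.card {j : IT F // dT F j = 1 ∧ wT F j = 2} = 0 := by
  have : IsEmpty {j : IT F // dT F j = 1 ∧ wT F j = 2} := by
    constructor
    rintro ⟨j, h1, h2⟩
    rcases j with (j | j | j) | j
    · have h3 : (1 : ℤ) = 2 := h2
      omega
    · have h3 : (0 : ℤ) = 2 := h2
      omega
    · have h3 : (-1 : ℤ) = 2 := h2
      omega
    · have h3 : (0 : ℤ) = 2 := h2
      omega
  exact Nat.card_of_isEmpty

theorem hwt : ∀ j, (XT F).hw j = 2 * wT F j := fun _ => rfl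

theorem chi_zero (i : ℤ) : (XT F).chi (wT F) 0 i = if i = 0 then 1 else 0 := by
  rw [← (XT F).chi_eq (wT F) (hwt F) 0 (by norm_num) i 1 (by norm_num)]
  rw [Finset.sum_range_one, pow_zero, one_mul]
  unfold Dat.cnt
  split_ifs with h
  · subst h
    rw [Nat.card_eq_one_iff_unique.2]
    · rfl
    refine ⟨⟨?_⟩, ⟨⟨∅, by simp, ?_⟩⟩⟩
    · rintro ⟨s, h1, _⟩ ⟨t, h2, _⟩
      rw [Finset.card_eq_zero] at h1 h2
      exact Subtype.ext (h1.trans h2.symm)
    · rw [Dat.gs_eq]
      simp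
  · have : IsEmpty {s : Finset (IT F) // s.card = 0 ∧ gs (XT F).c s = ![((0 : ℕ) : ℤ), 2 * i]} := by
      constructor
      rintro ⟨s, h1, h2⟩
      rw [Dat.gs_eq] at h2
      rw [Finset.card_eq_zero] at h1
      subst h1
      simp at h2
      exact h (by omega)
    rw [Nat.card_of_isEmpty]
    rfl

theorem chi_one (i : ℤ) : (XT F).chi (wT F) 1 i =
    - (Nat.card {j : IT F // dT F j = 1 ∧ wT F j = i} : ℤ) := by
  rw [← (XT F).chi_eq (wT F) (hwt F) 1 (by norm_num) i 2 (by norm_num)]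
  rw [Finset.sum_range_succ, Finset.sum_range_one]
  have h1 := cnt_zero_one F (2 * i)
  have h2 := cnt_one_one F i
  push_cast
  rw [h1, h2]
  simp

/-- the Euler characteristic argument -/
theorem hyp_all (hno : ∀ k : ℕ, 2 ≤ k → k ≤ 18 → 
    ¬ TrivialIn F (TAG F (FreeJord F 3)) TAG.slAct k ∧
    ¬ AdjointIn F (TAG F (FreeJord F 3)) TAG.slAct k) (n : ℕ) (hn : 2 ≤ n) (hn2 : n ≤ 18) :
    (XT F).chi (wT F) n 0 = (XT F).chi (wT F) n 1 ∧
    (XT F).chi (wT F) n 1 = (XT F).chi (wT F) n 2 := by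
  have h1 : ∀ i : ℤ, ∀ v ∈ (XT F).V 1 n i, v ∈ Bk F (TAG F (FreeJord F 3)) 1 := by
    intro i
    apply (XT F).hyp_one
    intro j hj
    apply bT_GG
    have : dT F j = n := hj
    omega
  have hbig : ∀ (k : ℕ) (i : ℤ), n < k → ∀ v ∈ (XT F).V k n i,
      v ∈ Bk F (TAG F (FreeJord F 3)) k := by
    intro k i hk v hv
    rw [(XT F).V_bot, Submodule.mem_bot] at hv
    · rw [hv]; exact Submodule.zero_mem _
    · intro s h1 h2 _
      have := (XT F).card_le s
      omega
  have h0 := (XT F).main_sum (n := n) (by exact_mod_cast (by omega : 1 ≤ n)) 0 (by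
    intro k hk v hv he hd
    rcases Nat.lt_or_ge k 2 with h | h
    · have : k = 1 := by omega
      subst this
      exact h1 _ v hv
    · rcases Nat.lt_or_ge 18 k with h18 | h18
      · exact hbig _ _ (by omega) v hv
      · exact (XT F).hyp_zero (no_zero (hno k h h18).1) n v hv he hd) (n + 1) (by push_cast; omega)
  have h2 := (XT F).main_sum (n := n) (by exact_mod_cast (by omega : 1 ≤ n)) 2 (by
    intro k hk v hv he hd
    rcases Nat.lt_or_ge k 2 with h | h
    · have : k = 1 := by omega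
      subst this
      exact h1 _ v hv
    · rcases Nat.lt_or_ge 18 k with h18 | h18
      · exact hbig _ _ (by omega) v hv
      · exact (XT F).hyp_two (no_two (hno k h h18).2) n v hv he hd) (n + 1) (by push_cast; omega)
  have c0 := (XT F).chi_eq (wT F) (hwt F) n hn2 0 (n + 1) (by omega)
  have c1 := (XT F).chi_eq (wT F) (hwt F) n hn2 1 (n + 1) (by omega)
  have c2 := (XT F).chi_eq (wT F) (hwt F) n hn2 2 (n + 1) (by omega)
  have e1 : ((0 : ℕ) : ℤ) = 2 * 0 := by norm_num
  have e2 : (2 * 0 : ℤ) + 2 = 2 * 1 := by norm_num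
  have e3 : ((2 : ℕ) : ℤ) = 2 * 1 := by norm_num
  have e4 : (2 * 1 : ℤ) + 2 = 2 * 2 := by norm_num
  rw [e1, e2] at h0
  rw [e3, e4] at h2
  simp only [mul_sub, Finset.sum_sub_distrib] at h0 h2
  rw [c0, c1] at h0
  rw [c1, c2] at h2
  constructor <;> omega

theorem main (hno : ∀ k : ℕ, 2 ≤ k → k ≤ 18 → 
    ¬ TrivialIn F (TAG F (FreeJord F 3)) TAG.slAct k ∧
    ¬ AdjointIn F (TAG F (FreeJord F 3)) TAG.slAct k) : False := by
  have hA := hyp_all F hno
  -- the coefficients of the product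
  have e0 : ((XT F).Phi (wT F) t19).coeff 0 - ((XT F).Phi (wT F) t19).coeff 1 = 1 := by
    rw [(XT F).Phi_coeff' (wT F) t19_pow, (XT F).Phi_coeff' (wT F) t19_pow,
      ← Finset.sum_sub_distrib, Finset.sum_eq_single_of_mem 0 (by simp)]
    · rw [chi_zero, chi_zero]
      simp
    · intro n hn hn0
      rw [Finset.mem_range] at hn
      rcases Nat.lt_or_ge n 2 with h | h
      · have : n = 1 := by omega
        subst this
        rw [chi_one, chi_one, card_w0, card_w1, sub_self]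
      · rw [(hA n h (by omega)).1, sub_self]
  have e1 : ((XT F).Phi (wT F) t19).coeff 1 - ((XT F).Phi (wT F) t19).coeff 2 = -(3 * t19) := by
    rw [(XT F).Phi_coeff' (wT F) t19_pow, (XT F).Phi_coeff' (wT F) t19_pow,
      ← Finset.sum_sub_distrib, Finset.sum_eq_single_of_mem 1 (by simp)]
    · rw [chi_one, chi_one, card_w1, card_w2]
      push_cast
      ring
    · intro n hn hn0
      rw [Finset.mem_range] at hn
      rcases Nat.lt_or_ge n 2 with h | h
      · have : n = 0 := by omega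
        subst this
        rw [chi_zero, chi_zero]
        simp
      · rw [(hA n h (by omega)).2, sub_self]
  obtain ⟨β, hβ⟩ := Phi_eq F t19
  rw [hβ] at e0 e1
  simp only [AddMonoidAlgebra.coeff_smul_apply, smul_eq_mul] at e0 e1
  have h1 : EK t19 (PsiA t19 (fun m => (Adim F m : ℤ))) = 0 := by
    unfold EK
    set p0 := (PsiA t19 (fun m => (Adim F m : ℤ))).coeff 0
    set p1 := (PsiA t19 (fun m => (Adim F m : ℤ))).coeff 1
    set p2 := (PsiA t19 (fun m => (Adim F m : ℤ))).coeff 2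
    linear_combination (p0 - p1) * e1 - (p1 - p2) * e0
  have h2 : EK t19 (PsiA t19 (fun m => (aN m : ℤ))) = 0 := by
    have : PsiA t19 (fun m => (aN m : ℤ)) = PsiK t19 := by
      unfold PsiA PsiK
      refine Finset.prod_congr rfl fun m _ => ?_
      rw [ipow_nat, ipow_nat]
    rw [this]
    exact EK_PsiK t19_pow
  have h3 := first_diff t19_pow h1 h2 t19_faithful 18 (by norm_num) le_rfl
  have h4 := Adim_ge F (m := 18) (by norm_num) le_rfl
  have h5 : aN 18 = 193681917 := rfl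
  simp only [h5] at h3
  have h6 : Adim F 18 = 193681917 := by exact_mod_cast h3
  rw [h6] at h4
  norm_num at h4

end Pool.Agent.U691.HT
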