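import Mathlib

/-!
# Commutative Jordan algebras: the derivations `D_{u,v}` and the space `B(J)`
-/

set_option autoImplicit false
set_option linter.unusedSectionVars false

namespace Pool.Agent.U691.HT

open scoped TensorProduct

variable (F : Type) [Field F] (J : Type) [NonUnitalNonAssocCommRing J] [Module F J]
  [IsScalarTower F J J] [SMulCommClass F J J]

variable {J} in
/-- `D_{u,v} = [L_u, L_v]`, that is `D_{u,v}(w) = u(vw) - v(uw)` -/
noncomputable def DD (u v : J) : J →ₗ[F] J :=
  LinearMap.mulLeft F u ∘ₗ LinearMap.mulLeft F v - LinearMap.mulLeft F v ∘ₗ LinearMap.mulLeft F u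

/-- the relations of `B(J)`: those of `Λ²(J)`, and `uv ∧ w + vw ∧ u + wu ∧ v` -/
def relB : Set (J ⊗[F] J) :=
  {t | (∃ u : J, t = u ⊗ₜ u) ∨
    ∃ u v w : J, t = (u * v) ⊗ₜ w + (v * w) ⊗ₜ u + (w * u) ⊗ₜ v}

/-- `B(J)`, the quotient of `Λ²(J)` by the span of all `uv ∧ w + vw ∧ u + wu ∧ v` -/
abbrev BJ : Type := (J ⊗[F] J) ⧸ Submodule.span F (relB F J)

variable {J}

/-- the class of `u ∧ v` in `B(J)` -/
noncomputable def wdg (u v : J) : BJ F J := (Submodule.span F (relB F J)).mkQ (u ⊗ₜ v)

variable {F}

theorem DD_apply (u v w : J) : DD F u v w = u * (v * w) - v * (u * w) := rfl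

theorem wdg_add_left (u v w : J) : wdg F (u + v) w = wdg F u w + wdg F v w := by
  simp only [wdg, TensorProduct.add_tmul, map_add]

theorem wdg_add_right (u v w : J) : wdg F u (v + w) = wdg F u v + wdg F u w := by
  simp only [wdg, TensorProduct.tmul_add, map_add]

theorem wdg_smul_left (c : F) (u v : J) : wdg F (c • u) v = c • wdg F u v := by
  simp only [wdg, ← TensorProduct.smul_tmul', map_smul]

theorem wdg_smul_right (c : F) (u v : J) : wdg F u (c • v) = c • wdg F u v := by
  simp only [wdg, TensorProduct.tmul_smul, map_smul]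

theorem wdg_self (u : J) : wdg F u u = 0 := by
  unfold wdg
  rw [Submodule.mkQ_apply, Submodule.Quotient.mk_eq_zero]
  exact Submodule.subset_span (Or.inl ⟨u, rfl⟩)

theorem wdg_cyc (u v w : J) : wdg F (u * v) w + wdg F (v * w) u + wdg F (w * u) v = 0 := by
  unfold wdg
  rw [← map_add, ← map_add, Submodule.mkQ_apply, Submodule.Quotient.mk_eq_zero]
  exact Submodule.subset_span (Or.inr ⟨u, v, w, rfl⟩)

theorem wdg_swap (u v : J) : wdg F u v = - wdg F v u := by
  have h := wdg_self (F := F) (u + v)
  rw [wdg_add_left, wdg_add_right, wdg_add_right, wdg_self, wdg_self, zero_add, add_zero] at h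
  exact eq_neg_of_add_eq_zero_left h

theorem wdg_zero_left (v : J) : wdg F 0 v = 0 := by
  have := wdg_smul_left (F := F) 0 (0 : J) v
  rwa [zero_smul, zero_smul] at this

theorem wdg_zero_right (v : J) : wdg F v 0 = 0 := by
  rw [wdg_swap, wdg_zero_left, neg_zero]

theorem wdg_neg_left (u v : J) : wdg F (-u) v = - wdg F u v := by
  have := wdg_smul_left (-1 : F) u v
  rwa [neg_one_smul, neg_one_smul] at this

theorem wdg_neg_right (u v : J) : wdg F u (-v) = - wdg F u v := by
  have := wdg_smul_right (-1 : F) u v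
  rwa [neg_one_smul, neg_one_smul] at this

theorem wdg_sub_left (u v w : J) : wdg F (u - v) w = wdg F u w - wdg F v w := by
  rw [sub_eq_add_neg, wdg_add_left, wdg_neg_left, sub_eq_add_neg]

theorem wdg_sub_right (u v w : J) : wdg F u (v - w) = wdg F u v - wdg F u w := by
  rw [sub_eq_add_neg, wdg_add_right, wdg_neg_right, sub_eq_add_neg]

/-- `ab ∧ c = a ∧ bc + b ∧ ca` -/
theorem wdg_mul (a b c : J) : wdg F (a * b) c = wdg F a (b * c) + wdg F b (c * a) := by
  have h := wdg_cyc (F := F) a b c
  rw [wdg_swap (b * c) a, wdg_swap (c * a) b] at h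
  rw [← sub_eq_zero, ← h]
  abel

/-- induction on elements of `B(J)` -/
theorem BJ_ind {P : BJ F J → Prop} (h1 : ∀ u v, P (wdg F u v))
    (h2 : ∀ x y, P x → P y → P (x + y)) (β : BJ F J) : P β := by
  obtain ⟨t, rfl⟩ := Submodule.mkQ_surjective _ β
  induction t using TensorProduct.induction_on with
  | zero =>
    have := h1 0 0
    rwa [wdg_zero_left] at this
  | tmul x y => exact h1 x y
  | add x y hx hy => rw [map_add]; exact h2 _ _ hx hy

/-- linear maps out of `B(J)` agree if they agree on the `u ∧ v` -/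
theorem BJ_ext {M : Type} [AddCommGroup M] [Module F M] {f g : BJ F J →ₗ[F] M}
    (h : ∀ u v, f (wdg F u v) = g (wdg F u v)) : f = g := by
  ext u v
  exact h u v

/-- linear maps out of `B(J)` -/
noncomputable def liftB {M : Type} [AddCommGroup M] [Module F M] (f : J →ₗ[F] J →ₗ[F] M)
    (h1 : ∀ u, f u u = 0) (h2 : ∀ u v w, f (u * v) w + f (v * w) u + f (w * u) v = 0) :
    BJ F J →ₗ[F] M :=
  Submodule.liftQ _ (TensorProduct.lift f) (by
    rw [Submodule.span_le]
    rintro t (⟨u, rfl⟩ | ⟨u, v, w, rfl⟩)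
    · show TensorProduct.lift f _ = 0
      rw [TensorProduct.lift.tmul, h1]
    · show TensorProduct.lift f _ = 0
      rw [map_add, map_add, TensorProduct.lift.tmul, TensorProduct.lift.tmul,
        TensorProduct.lift.tmul, h2])

theorem liftB_wdg {M : Type} [AddCommGroup M] [Module F M] (f : J →ₗ[F] J →ₗ[F] M)
    (h1 : ∀ u, f u u = 0) (h2 : ∀ u v w, f (u * v) w + f (v * w) u + f (w * u) v = 0) (u v : J) :
    liftB f h1 h2 (wdg F u v) = f u v := by
  unfold liftB wdg
  rw [Submodule.mkQ_apply, Submodule.liftQ_apply, TensorProduct.lift.tmul]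

section Jordan

variable [CharZero F] [IsCommJordan J]

/-- the linearised Jordan identity -/
theorem jord_lin (a b c y : J) : DD F (a * b) c y + DD F (b * c) a y + DD F (c * a) b y = 0 := by
  have h := two_nsmul_lie_lmul_lmul_add_add_eq_zero a b c
  rw [two_nsmul] at h
  have h1 := DFunLike.congr_fun h y
  change ((a * ((b * c) * y) - (b * c) * (a * y)) + (b * ((c * a) * y) - (c * a) * (b * y)) +
    (c * ((a * b) * y) - (a * b) * (c * y))) + ((a * ((b * c) * y) - (b * c) * (a * y)) +
    (b * ((c * a) * y) - (c * a) * (b * y)) +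
    (c * ((a * b) * y) - (a * b) * (c * y))) = 0 at h1
  have h2 : (2 : F) • (DD F (a * b) c y + DD F (b * c) a y + DD F (c * a) b y) = 0 := by
    rw [two_smul, ← neg_eq_zero, ← h1]
    simp only [DD_apply]
    abel
  exact (smul_eq_zero.1 h2).resolve_left two_ne_zero

variable (F) in
include F in
theorem jord4 (x z w y : J) : x * ((z * w) * y) + z * ((w * x) * y) + w * ((x * z) * y) =
    (x * z) * (w * y) + (z * w) * (x * y) + (w * x) * (z * y) := by
  have h := jord_lin (F := F) x z w y
  simp only [DD_apply] at h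
  rw [← sub_eq_zero, ← neg_eq_zero, ← h]
  abel

/-- `D_{u,v}` is a derivation -/
theorem DD_mul (u v a b : J) : DD F u v (a * b) = DD F u v a * b + a * DD F u v b := by
  have h1 := jord4 F a b u v
  have h2 := jord4 F a b v u
  simp only [DD_apply, mul_sub, mul_comm] at h1 h2 ⊢
  linear_combination (norm := abel) h1 - h2

theorem DD_self (u : J) : DD F u u = 0 := by
  ext w
  rw [DD_apply, sub_self]
  rfl

/-- the linear map `β ↦ D_β`, `u ∧ v ↦ D_{u,v}` -/
noncomputable def Dm : BJ F J →ₗ[F] J →ₗ[F] J :=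
  liftB (LinearMap.mk₂ F (DD F)
    (by intro a b c; ext w; simp only [DD_apply, LinearMap.add_apply, add_mul, mul_add]; abel)
    (by
      intro a b c; ext w
      simp only [DD_apply, LinearMap.smul_apply, smul_mul_assoc, mul_smul_comm, smul_sub])
    (by intro a b c; ext w; simp only [DD_apply, LinearMap.add_apply, add_mul, mul_add]; abel)
    (by
      intro a b c; ext w
      simp only [DD_apply, LinearMap.smul_apply, smul_mul_assoc, mul_smul_comm, smul_sub]))
    (fun u => DD_self u)
    (fun u v w => by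
      ext y
      simp only [LinearMap.mk₂_apply, LinearMap.add_apply]
      exact jord_lin u v w y)

theorem Dm_wdg (u v : J) : Dm (wdg F u v) = DD F u v := by
  exact liftB_wdg _ _ _ u v

theorem Dm_mul (β : BJ F J) (a b : J) : Dm β (a * b) = Dm β a * b + a * Dm β b := by
  induction β using BJ_ind with
  | h1 u v => rw [Dm_wdg, DD_mul]
  | h2 x y hx hy => simp only [map_add, LinearMap.add_apply, hx, hy, add_mul, mul_add]; abel

/-- the action of a derivation `D` of `J` on `B(J)`: `u ∧ v ↦ D u ∧ v + u ∧ D v` -/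
noncomputable def derB (D : J →ₗ[F] J) (hD : ∀ a b, D (a * b) = D a * b + a * D b) :
    BJ F J →ₗ[F] BJ F J :=
  liftB (LinearMap.mk₂ F (fun u v => wdg F (D u) v + wdg F u (D v))
    (by intro a b c; simp only [wdg_add_left, map_add]; abel)
    (by intro a b c; simp only [wdg_smul_left, map_smul, smul_add])
    (by intro a b c; simp only [wdg_add_right, map_add]; abel)
    (by intro a b c; simp only [wdg_smul_right, map_smul, smul_add]))
    (fun u => by
      simp only [LinearMap.mk₂_apply]
      rw [wdg_swap u (D u), add_neg_cancel])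
    (fun u v w => by
      simp only [LinearMap.mk₂_apply, hD, wdg_add_left]
      have h1 := wdg_cyc (F := F) (D u) v w
      have h2 := wdg_cyc (F := F) u (D v) w
      have h3 := wdg_cyc (F := F) u v (D w)
      linear_combination (norm := abel) h1 + h2 + h3)

theorem derB_wdg (D : J →ₗ[F] J) (hD : ∀ a b, D (a * b) = D a * b + a * D b) (u v : J) :
    derB D hD (wdg F u v) = wdg F (D u) v + wdg F u (D v) := by
  unfold derB
  rw [liftB_wdg]
  rfl

/-- the bracket of `B(J)`: `[u ∧ v, w ∧ z] = D_{u,v}(w) ∧ z + w ∧ D_{u,v}(z)` -/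
noncomputable def brB : BJ F J →ₗ[F] BJ F J →ₗ[F] BJ F J where
  toFun β := derB (Dm β) (Dm_mul β)
  map_add' β β' := by
    apply BJ_ext
    intro u v
    simp only [LinearMap.add_apply, derB_wdg, map_add, wdg_add_left, wdg_add_right]
    abel
  map_smul' c β := by
    apply BJ_ext
    intro u v
    simp only [LinearMap.smul_apply, derB_wdg, map_smul, wdg_smul_left, wdg_smul_right, smul_add,
      RingHom.id_apply]

theorem brB_wdg (β : BJ F J) (u v : J) :
    brB β (wdg F u v) = wdg F (Dm β u) v + wdg F u (Dm β v) := derB_wdg _ (Dm_mul β) u v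

/-- `[D, D_β] = D_{D β}` for a derivation `D` -/
theorem Dm_derB (D : J →ₗ[F] J) (hD : ∀ a b, D (a * b) = D a * b + a * D b) (β : BJ F J) (w : J) :
    Dm (derB D hD β) w = D (Dm β w) - Dm β (D w) := by
  induction β using BJ_ind with
  | h1 u v =>
    rw [derB_wdg, map_add, Dm_wdg, Dm_wdg, Dm_wdg]
    simp only [DD_apply, LinearMap.add_apply, hD, map_sub, mul_add]
    abel
  | h2 x y hx hy => simp only [map_add, LinearMap.add_apply, hx, hy]; abel

theorem Dm_brB (β γ : BJ F J) (w : J) : Dm (brB β γ) w = Dm β (Dm γ w) - Dm γ (Dm β w) :=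
  Dm_derB _ (Dm_mul β) γ w

theorem brB_skew (β γ : BJ F J) : brB β γ = - brB γ β := by
  induction β using BJ_ind with
  | h1 u v =>
    induction γ using BJ_ind with
    | h1 w z =>
      rw [brB_wdg, brB_wdg, Dm_wdg, Dm_wdg]
      have a1 := wdg_mul (F := F) u (v * w) z
      have a2 := wdg_mul (F := F) v (u * w) z
      have a3 := wdg_mul (F := F) u (v * z) w
      have a4 := wdg_mul (F := F) v (u * z) w
      have a5 := wdg_swap (F := F) w (u * (v * z))
      have a6 := wdg_swap (F := F) w (v * (u * z))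
      have a7 := wdg_swap (F := F) (v * w) (z * u)
      have a8 := wdg_swap (F := F) (v * z) (w * u)
      have a9 := wdg_swap (F := F) (w * (z * u)) v
      have a10 := wdg_swap (F := F) (z * (w * u)) v
      simp only [DD_apply, wdg_sub_left, wdg_sub_right, mul_comm] at a1 a2 a3 a4 a5 a6 a7 a8 a9 a10 ⊢
      linear_combination (norm := abel) a1 - a2 - a3 + a4 + a5 - a6 + a7 - a8 + a9 - a10
    | h2 x y hx hy => simp only [map_add, LinearMap.add_apply, hx, hy]; abel
  | h2 x y hx hy => simp only [map_add, LinearMap.add_apply, hx, hy]; abel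

end Jordan

end Pool.Agent.U691.HT
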