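import Pool.Agent.U691.HT.Rep
import Pool.Agent.U691.KM.Bound

/-!
# The contradiction in degree `18`
-/

set_option autoImplicit false
set_option linter.unusedSectionVars false

namespace Pool.Agent.U691.HT

open Pool.Agent.U691.CE Pool.Agent.U691.KM

variable (F : Type) [Field F] [CharZero F]

/-- the basis elements of `J` of degree at most `18` -/
noncomputable def SJ' : Finset (IJ F) := (finite_aJ F 18).toFinset

theorem mem_SJ {j : IJ F} : j ∈ SJ' F ↔ fd (aJ F j) ≤ 18 := by
  unfold SJ'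
  rw [Set.Finite.mem_toFinset]
  rfl

/-- the basis elements of `B(J)` of degree at most `18` -/
noncomputable def SB' : Finset (IB F) := (finite_aB F 18).toFinset

theorem mem_SB {j : IB F} : j ∈ SB' F ↔ fd (aB F j).1 + fd (aB F j).2 ≤ 18 := by
  unfold SB'
  rw [Set.Finite.mem_toFinset]
  rfl

/-- the dimension of the component of degree `m` of the free Jordan algebra -/
noncomputable def Adim (m : ℕ) : ℕ := ((SJ' F).filter fun j => fd (aJ F j) = m).card

theorem In_eq : (XT F).In 18 = ((SJ' F).disjSum ((SJ' F).disjSum (SJ' F))).disjSum (SB' F) := by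
  ext j
  rw [Dat.mem_In]
  rcases j with (j | j | j) | j
  · have := mem_SJ F (j := j)
    simp only [Finset.inl_mem_disjSum, this]
    show ((fd (aJ F j) : ℕ) : ℤ) ≤ 18 ↔ _
    omega
  · have := mem_SJ F (j := j)
    simp only [Finset.inl_mem_disjSum, Finset.inr_mem_disjSum, this]
    show ((fd (aJ F j) : ℕ) : ℤ) ≤ 18 ↔ _
    omega
  · have := mem_SJ F (j := j)
    simp only [Finset.inl_mem_disjSum, Finset.inr_mem_disjSum, this]
    show ((fd (aJ F j) : ℕ) : ℤ) ≤ 18 ↔ _
    omega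
  · have := mem_SB F (j := j)
    simp only [Finset.inr_mem_disjSum, this]
    show ((fd (aB F j).1 : ℕ) : ℤ) + ((fd (aB F j).2 : ℕ) : ℤ) ≤ 18 ↔ _
    omega

theorem dg_1 (j : IJ F) : (XT F).dg (Sum.inl (Sum.inl j)) = fd (aJ F j) := rfl
theorem dg_2 (j : IJ F) : (XT F).dg (Sum.inl (Sum.inr (Sum.inl j))) = fd (aJ F j) := rfl
theorem dg_3 (j : IJ F) : (XT F).dg (Sum.inl (Sum.inr (Sum.inr j))) = fd (aJ F j) := rfl
theorem dg_4 (j : IB F) : (XT F).dg (Sum.inr j) = fd (aB F j).1 + fd (aB F j).2 := rfl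

variable {K : Type} [CommRing K] {τ : K}

theorem prod_SJ (g : ℕ → AddMonoidAlgebra K ℤ) :
    ∏ j ∈ SJ' F, g (fd (aJ F j)) = ∏ m ∈ Finset.Icc 1 18, g m ^ Adim F m := by
  rw [← Finset.prod_fiberwise_of_maps_to (g := fun j => fd (aJ F j)) (t := Finset.Icc 1 18)]
  · refine Finset.prod_congr rfl fun m _ => ?_
    unfold Adim
    rw [Finset.prod_congr rfl (g := fun _ => g m), Finset.prod_const]
    intro j hj
    rw [Finset.mem_filter] at hj
    simp only [hj.2]
  · intro j hj
    rw [mem_SJ] at hj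
    rw [Finset.mem_Icc]
    exact ⟨fd_pos _, hj⟩

theorem Phi_eq (τ : K) : ∃ β : K, (XT F).Phi (wT F) τ = β • PsiA τ (fun m => (Adim F m : ℤ)) := by
  unfold Dat.Phi
  rw [In_eq, Finset.prod_disjSum, Finset.prod_disjSum, Finset.prod_disjSum]
  simp only [dg_1, dg_2, dg_3, dg_4]
  have w1 : ∀ j : IJ F, wT F (Sum.inl (Sum.inl j)) = 1 := fun _ => rfl
  have w2 : ∀ j : IJ F, wT F (Sum.inl (Sum.inr (Sum.inl j))) = 0 := fun _ => rfl
  have w3 : ∀ j : IJ F, wT F (Sum.inl (Sum.inr (Sum.inr j))) = -1 := fun _ => rfl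
  have w4 : ∀ j : IB F, wT F (Sum.inr j) = 0 := fun _ => rfl
  simp only [w1, w2, w3, w4]
  obtain ⟨β1, h1⟩ := scalar_prod (K := K) (SJ' F)
    (fun j => 1 - tt τ ^ fd (aJ F j) * eK K 0) (fun j _ => ⟨1 - τ ^ fd (aJ F j), by
      rw [eK_zero, mul_one, map_sub, map_one, map_pow]⟩)
  obtain ⟨β2, h2⟩ := scalar_prod (K := K) (SB' F)
    (fun j => 1 - tt τ ^ (fd (aB F j).1 + fd (aB F j).2) * eK K 0)
    (fun j _ => ⟨1 - τ ^ (fd (aB F j).1 + fd (aB F j).2), by
      rw [eK_zero, mul_one, map_sub, map_one, map_pow]⟩)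
  rw [h1, h2]
  refine ⟨β1 * β2, ?_⟩
  have h3 := prod_SJ F (K := K) (fun m => 1 - tt τ ^ m * eK K 1)
  have h4 := prod_SJ F (K := K) (fun m => 1 - tt τ ^ m * eK K (-1))
  rw [h3, h4]
  unfold PsiA
  simp only [ipow_nat]
  rw [Finset.prod_mul_distrib, Algebra.smul_def, map_mul]
  ring

theorem NJ_repr (v : FreeJord F 3) (j : IJ F) :
    (bJ F).repr (NJ F 3 v) j = (fd (aJ F j) : F) * (bJ F).repr v j := by
  classical
  have h : (Finsupp.lapply j ∘ₗ (bJ F).repr.toLinearMap) ∘ₗ NJ F 3 =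
      (fd (aJ F j) : F) • (Finsupp.lapply j ∘ₗ (bJ F).repr.toLinearMap) := by
    apply (bJ F).ext
    intro t
    have h1 : NJ F 3 (bJ F t) = (fd (aJ F t) : F) • bJ F t := by
      rw [bJ_apply, NJ_mono]; rfl
    simp only [LinearMap.comp_apply, h1, map_smul, LinearMap.smul_apply,
      LinearEquiv.coe_coe, Module.Basis.repr_self, Finsupp.lapply_apply, smul_eq_mul,
      Finsupp.single_apply]
    split_ifs with h
    · rw [h]
    · simp
  exact LinearMap.congr_fun h v

theorem mono_mem (m : FreeMagma (Fin 3)) : mono F m ∈ Submodule.span F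
    (Set.range fun j : {j : IJ F // fd (aJ F j) = fd m} => bJ F j.1) := by
  have h1 : ∀ j, (bJ F).repr (mono F m) j ≠ 0 → fd (aJ F j) = fd m := by
    intro j hj
    have h2 := NJ_repr F (mono F m) j
    rw [NJ_mono, map_smul, Finsupp.smul_apply, smul_eq_mul] at h2
    have h3 := mul_right_cancel₀ hj h2
    have h4 : ((fd m : ℕ) : F) = fd (aJ F j) := h3
    exact_mod_cast h4.symm
  rw [← (bJ F).linearCombination_repr (mono F m), Finsupp.linearCombination_apply]
  refine Submodule.sum_mem _ fun j hj => Submodule.smul_mem _ _ (Submodule.subset_span ?_)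
  exact ⟨⟨j, h1 j (Finsupp.mem_support_iff.1 hj)⟩, rfl⟩

theorem card_sub {m : ℕ} (hm : m ≤ 18) : Nat.card {j : IJ F // fd (aJ F j) = m} = Adim F m := by
  unfold Adim
  apply Nat.subtype_card
  intro j
  rw [Finset.mem_filter, mem_SJ]
  omega

theorem finite_sub (m : ℕ) : Finite {j : IJ F // fd (aJ F j) = m} :=
  ((finite_aJ F m).subset fun j (hj : fd (aJ F j) = m) => hj.le).to_subtype

theorem Adim_ge {m : ℕ} (h1 : 1 ≤ m) (hm : m ≤ 18) : 3 ^ m ≤ 2 * Adim F m := by
  have h2 := finrank_En_ge (F := F) two_ne_zero h1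
  refine h2.trans (Nat.mul_le_mul_left 2 ?_)
  have := finite_sub F m
  have := Fintype.ofFinite {j : IJ F // fd (aJ F j) = m}
  have h3 : En F m ≤ Submodule.span F
      (Set.range fun j : {j : IJ F // fd (aJ F j) = m} => phiJ F (bJ F j.1)) := by
    unfold En
    rw [Submodule.span_le]
    rintro _ ⟨t, ht, rfl⟩
    have h4 := mono_mem F t
    have h5 : jm F t = phiJ F (mono F t) := by
      unfold mono mk
      rw [phiJ_mk, Jm_single]
    rw [h5]
    have h6 := Submodule.mem_map_of_mem (f := phiJ F) h4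
    rw [Submodule.map_span, ← Set.range_comp] at h6
    have h7 : fd t = m := ht
    rw [h7] at h6
    exact h6
  have hfin : Module.Finite F (Submodule.span F
      (Set.range fun j : {j : IJ F // fd (aJ F j) = m} => phiJ F (bJ F j.1))) :=
    FiniteDimensional.span_of_finite F (Set.finite_range _)
  have h8 := Submodule.finrank_mono h3
  refine h8.trans ?_
  refine (finrank_range_le_card _).trans ?_
  rw [← Nat.card_eq_fintype_card, card_sub F hm]

end Pool.Agent.U691.HT
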