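import Pool.Agent.U691.HT.Free
import Pool.Agent.U691.CE.Basic

/-!
# The Tits–Allison–Gao algebra by its presentation, and submodules of its homology
-/

set_option autoImplicit false
set_option linter.unusedSectionVars false

namespace Pool.Agent.U691.HT

open scoped TensorProduct
open Pool.Agent.U691.CE

section

variable (F : Type) [Field F] (J : Type) [NonUnitalNonAssocCommRing J] [Module F J]
  (g : Type) [LieRing g] [LieAlgebra F g]

/-- The Lie algebra `g` is the Tits–Allison–Gao algebra `TAG(J) = sl₂ ⊗ J ⊕ B(J)` of the Jordan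
algebra `J`: the elements `X ⊗ u` are `t X u`, the elements `u ∧ v` of `B(J)` are `w u v`, and
`r X` is the action of `X` (from `sl₂`) on `g` through the factor `sl₂` of `sl₂ ⊗ J`.

The fields `tt`, `wt`, `ww` are the formulas for the bracket, where `D_{u,v} = [L_u, L_v]`.  The
field `ker` says that `g` contains `sl₂ ⊗ J ⊕ B(J)`, where `B(J)` is the quotient of `J ⊗ J`
by the span of all `u ⊗ u` and all `uv ⊗ w + vw ⊗ u + wu ⊗ v`, and `top` that this is all
of `g`. -/
structure IsTAG (t : LieAlgebra.SpecialLinear.sl (Fin 2) F →ₗ[F] J →ₗ[F] g)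
    (w : J →ₗ[F] J →ₗ[F] g)
    (r : LieAlgebra.SpecialLinear.sl (Fin 2) F → g →ₗ[F] g) : Prop where
  tt : ∀ X Y u v, ⁅t X u, t Y v⁆ = t ⁅X, Y⁆ (u * v) + (2 * (X.1 * Y.1).trace) • w u v
  wt : ∀ u v X x, ⁅w u v, t X x⁆ = t X (u * (v * x) - v * (u * x))
  ww : ∀ u v x y, ⁅w u v, w x y⁆ =
    w (u * (v * x) - v * (u * x)) y + w x (u * (v * y) - v * (u * y))
  ker : ∀ (a : LieAlgebra.SpecialLinear.sl (Fin 2) F ⊗[F] J) (b : J ⊗[F] J),
    TensorProduct.lift t a + TensorProduct.lift w b = 0 ↔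
      a = 0 ∧ b ∈ Submodule.span F (relB F J)
  top : ∀ x : g, ∃ (a : LieAlgebra.SpecialLinear.sl (Fin 2) F ⊗[F] J) (b : J ⊗[F] J),
    x = TensorProduct.lift t a + TensorProduct.lift w b
  rt : ∀ X Y u, r X (t Y u) = t ⁅X, Y⁆ u
  rw : ∀ X u v, r X (w u v) = 0

variable (r : LieAlgebra.SpecialLinear.sl (Fin 2) F → g →ₗ[F] g)

/-- For the action `r` of `sl₂` on `g` by derivations: the `sl₂`-module `H_k(g, F) = Z_k / B_k`
contains a submodule isomorphic to the trivial module `L(0)`, that is a nonzero class which is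
annihilated by `sl₂`. -/
def TrivialIn (k : ℕ) : Prop :=
  ∃ z ∈ Zk F g k, z ∉ Bk F g k ∧ ∀ X, Th (r X) z ∈ Bk F g k

/-- For the action `r` of `sl₂` on `g` by derivations: the `sl₂`-module `H_k(g, F) = Z_k / B_k`
contains a submodule isomorphic to the adjoint module `L(2) = sl₂`, that is there is an injective
equivariant linear map from `sl₂` to `Z_k / B_k`, given by a linear map from `sl₂` to `Z_k`. -/
def AdjointIn (k : ℕ) : Prop :=
  ∃ φ : LieAlgebra.SpecialLinear.sl (Fin 2) F →ₗ[F] ExteriorAlgebra F g,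
    (∀ X, φ X ∈ Zk F g k) ∧ (∀ X, φ X ∈ Bk F g k → X = 0) ∧
    ∀ X Y, φ ⁅X, Y⁆ - Th (r X) (φ Y) ∈ Bk F g k

end

end Pool.Agent.U691.HT
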