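import Pool.Agent.U691.HT.Act
import Pool.Agent.U691.HT.State

/-!
# The Lie algebra `TAG F J` satisfies the presentation
-/

set_option autoImplicit false
set_option linter.unusedSectionVars false
set_option linter.unusedSimpArgs false

namespace Pool.Agent.U691.HT

open scoped TensorProduct
open Pool.Agent.U691.CE

variable (F : Type) [Field F] [CharZero F] (J : Type) [NonUnitalNonAssocCommRing J] [Module F J]
  [IsScalarTower F J J] [SMulCommClass F J J] [IsCommJordan J]

/-- `X ⊗ u` as a bilinear map -/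
noncomputable def tT : LieAlgebra.SpecialLinear.sl (Fin 2) F →ₗ[F] J →ₗ[F] TAG F J :=
  LinearMap.mk₂ F TAG.tens
    (by
      intro X Y u
      have h1 : ∀ i j, (X + Y).1 i j = X.1 i j + Y.1 i j := fun _ _ => rfl
      unfold TAG.tens
      ext <;> simp only [h1, TAG.pe_mk, TAG.ph_mk, TAG.pf_mk, TAG.pb_mk, TAG.pe_add, TAG.ph_add,
        TAG.pf_add, TAG.pb_add] <;> module)
    (by
      intro c X u
      have h1 : ∀ i j, (c • X).1 i j = c * X.1 i j := fun _ _ => rfl
      unfold TAG.tens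
      ext <;> simp only [h1, TAG.pe_mk, TAG.ph_mk, TAG.pf_mk, TAG.pb_mk, TAG.pe_smul, TAG.ph_smul,
        TAG.pf_smul, TAG.pb_smul] <;> module)
    (by
      intro X u v
      unfold TAG.tens
      ext <;> simp only [TAG.pe_mk, TAG.ph_mk, TAG.pf_mk, TAG.pb_mk, TAG.pe_add, TAG.ph_add,
        TAG.pf_add, TAG.pb_add] <;> module)
    (by
      intro c X u
      unfold TAG.tens
      ext <;> simp only [TAG.pe_mk, TAG.ph_mk, TAG.pf_mk, TAG.pb_mk, TAG.pe_smul, TAG.ph_smul,
        TAG.pf_smul, TAG.pb_smul] <;> module)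

theorem tT_apply (X : LieAlgebra.SpecialLinear.sl (Fin 2) F) (u : J) :
    tT F J X u = TAG.tens X u := rfl

/-- `u ∧ v` as a bilinear map -/
noncomputable def wT' : J →ₗ[F] J →ₗ[F] TAG F J :=
  LinearMap.mk₂ F (fun u v => TAG.mk 0 0 0 (wdg F u v))
    (by
      intro X Y u
      ext <;> simp only [TAG.pe_mk, TAG.ph_mk, TAG.pf_mk, TAG.pb_mk, TAG.pe_add, TAG.ph_add,
        TAG.pf_add, TAG.pb_add, wdg_add_left, add_zero])
    (by
      intro c X u
      ext <;> simp only [TAG.pe_mk, TAG.ph_mk, TAG.pf_mk, TAG.pb_mk, TAG.pe_smul, TAG.ph_smul,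
        TAG.pf_smul, TAG.pb_smul, wdg_smul_left, smul_zero])
    (by
      intro X u v
      ext <;> simp only [TAG.pe_mk, TAG.ph_mk, TAG.pf_mk, TAG.pb_mk, TAG.pe_add, TAG.ph_add,
        TAG.pf_add, TAG.pb_add, wdg_add_right, add_zero])
    (by
      intro c X u
      ext <;> simp only [TAG.pe_mk, TAG.ph_mk, TAG.pf_mk, TAG.pb_mk, TAG.pe_smul, TAG.ph_smul,
        TAG.pf_smul, TAG.pb_smul, wdg_smul_right, smul_zero])

theorem wT'_apply (u v : J) : wT' F J u v = TAG.mk 0 0 0 (wdg F u v) := rfl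

theorem lift_w (b : J ⊗[F] J) : TensorProduct.lift (wT' F J) b =
    TAG.mk 0 0 0 ((Submodule.span F (relB F J)).mkQ b) := by
  induction b using TensorProduct.induction_on with
  | zero => rw [map_zero, map_zero]; rfl
  | tmul x y => rw [TensorProduct.lift.tmul]; rfl
  | add x y hx hy =>
    rw [map_add, hx, hy, map_add]
    ext <;> simp

/-- `e`, `h`, `f` -/
def slE : LieAlgebra.SpecialLinear.sl (Fin 2) F :=
  ⟨!![0, 1; 0, 0], by simp [LieAlgebra.SpecialLinear.sl]⟩
def slH : LieAlgebra.SpecialLinear.sl (Fin 2) F :=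
  ⟨!![1, 0; 0, -1], by simp [LieAlgebra.SpecialLinear.sl, Matrix.trace_fin_two]⟩
def slF : LieAlgebra.SpecialLinear.sl (Fin 2) F :=
  ⟨!![0, 0; 1, 0], by simp [LieAlgebra.SpecialLinear.sl]⟩

theorem sl_eq (X : LieAlgebra.SpecialLinear.sl (Fin 2) F) :
    X = X.1 0 1 • slE F + X.1 0 0 • slH F + X.1 1 0 • slF F := by
  apply Subtype.ext
  have h : ((X.1 0 1 • slE F + X.1 0 0 • slH F + X.1 1 0 • slF F :
    LieAlgebra.SpecialLinear.sl (Fin 2) F) : Matrix (Fin 2) (Fin 2) F) =
    X.1 0 1 • !![0, 1; 0, 0] + X.1 0 0 • !![1, 0; 0, -1] + X.1 1 0 • !![0, 0; 1, 0] := rfl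
  rw [h]
  ext i j
  fin_cases i <;> fin_cases j
  · simp
  · simp
  · simp
  · have := TAG.sl_11 X
    simpa using this

/-- the inverse on the part `sl₂ ⊗ J` -/
noncomputable def sT : TAG F J →ₗ[F] LieAlgebra.SpecialLinear.sl (Fin 2) F ⊗[F] J where
  toFun x := slE F ⊗ₜ TAG.pe x + slH F ⊗ₜ TAG.ph x + slF F ⊗ₜ TAG.pf x
  map_add' x y := by
    simp only [TAG.pe_add, TAG.ph_add, TAG.pf_add, TensorProduct.tmul_add]
    abel
  map_smul' c x := by
    simp only [TAG.pe_smul, TAG.ph_smul, TAG.pf_smul, TensorProduct.tmul_smul, smul_add,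
      RingHom.id_apply]

theorem sT_lift (a : LieAlgebra.SpecialLinear.sl (Fin 2) F ⊗[F] J) :
    sT F J (TensorProduct.lift (tT F J) a) = a := by
  induction a using TensorProduct.induction_on with
  | zero => rw [map_zero, map_zero]
  | tmul X u =>
    rw [TensorProduct.lift.tmul, tT_apply]
    show slE F ⊗ₜ (X.1 0 1 • u) + slH F ⊗ₜ (X.1 0 0 • u) + slF F ⊗ₜ (X.1 1 0 • u) = _
    rw [← TensorProduct.smul_tmul, ← TensorProduct.smul_tmul, ← TensorProduct.smul_tmul,
      ← TensorProduct.add_tmul, ← TensorProduct.add_tmul, ← sl_eq]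
  | add x y hx hy => rw [map_add, map_add, hx, hy]

theorem pb_lift (a : LieAlgebra.SpecialLinear.sl (Fin 2) F ⊗[F] J) :
    TAG.pb (TensorProduct.lift (tT F J) a) = 0 := by
  induction a using TensorProduct.induction_on with
  | zero => rw [map_zero]; rfl
  | tmul X u => rw [TensorProduct.lift.tmul]; rfl
  | add x y hx hy => rw [map_add, TAG.pb_add, hx, hy, add_zero]

/-- the Lie algebra `TAG F J` is the Tits–Allison–Gao algebra of `J` -/
theorem isTAG : IsTAG F J (TAG F J) (tT F J) (wT' F J) TAG.slAct where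
  tt X Y u v := by
    rw [tT_apply, tT_apply, TAG.lie_tens, tT_apply, wT'_apply]
    congr 1
    ext <;> simp
  wt u v X x := by
    rw [tT_apply, wT'_apply, TAG.lie_pb_tens, Dm_wdg, tT_apply, DD_apply]
  ww u v x y := by
    rw [wT'_apply, wT'_apply, TAG.lie_pb_pb, brB_wdg, Dm_wdg, wT'_apply, wT'_apply, DD_apply,
      DD_apply]
    ext <;> simp
  ker a b := by
    constructor
    · intro h
      rw [lift_w] at h
      have h1 := congrArg TAG.pb h
      rw [TAG.pb_add, pb_lift, zero_add, TAG.pb_mk, TAG.pb_zero, Submodule.mkQ_apply] at h1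
      have h2 := h1
      rw [Submodule.Quotient.mk_eq_zero] at h2
      refine ⟨?_, h2⟩
      rw [Submodule.mkQ_apply, h1] at h
      have h3 : TensorProduct.lift (tT F J) a = 0 := by
        have h4 : (TAG.mk 0 0 0 0 : TAG F J) = 0 := rfl
        rwa [h4, add_zero] at h
      rw [← sT_lift F J a, h3, map_zero]
    · rintro ⟨rfl, h⟩
      rw [map_zero, zero_add, lift_w, Submodule.mkQ_apply, (Submodule.Quotient.mk_eq_zero _).2 h]
      rfl
  top x := by
    obtain ⟨b, hb⟩ := Submodule.mkQ_surjective (Submodule.span F (relB F J)) (TAG.pb x)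
    refine ⟨sT F J x, b, ?_⟩
    rw [lift_w, hb]
    show x = TensorProduct.lift (tT F J) (slE F ⊗ₜ TAG.pe x + slH F ⊗ₜ TAG.ph x +
      slF F ⊗ₜ TAG.pf x) + _
    rw [map_add, map_add, TensorProduct.lift.tmul, TensorProduct.lift.tmul,
      TensorProduct.lift.tmul, tT_apply, tT_apply, tT_apply]
    unfold TAG.tens slE slH slF
    ext <;> simp
  rt X Y u := by
    rw [tT_apply, tT_apply, TAG.slAct_tens]
  rw X u v := by
    rw [wT'_apply, TAG.slAct_pb]

end Pool.Agent.U691.HT
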