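import Pool.Agent.U691.HT.DatT
import Pool.Agent.U691.HT.Pres
import Pool.Agent.U691.CE.Hyp

/-!
# Trivial and adjoint submodules of the homology
-/

set_option autoImplicit false
set_option linter.unusedSectionVars false

namespace Pool.Agent.U691.HT

open Pool.Agent.U691.CE Pool.Agent.U691.KM

variable {F : Type} [Field F] [CharZero F] {J : Type} [NonUnitalNonAssocCommRing J] [Module F J]
  [IsScalarTower F J J] [SMulCommClass F J J] [IsCommJordan J]

variable (F J) in
/-- the action of `e` on the exterior algebra -/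
noncomputable abbrev eE : ExteriorAlgebra F (TAG F J) →ₗ[F] ExteriorAlgebra F (TAG F J) :=
  Th (TAG.act (1 : F) 0 0)

variable (F J) in
/-- the action of `f` on the exterior algebra -/
noncomputable abbrev fE : ExteriorAlgebra F (TAG F J) →ₗ[F] ExteriorAlgebra F (TAG F J) :=
  Th (TAG.act (0 : F) 0 1)

variable (F J) in
/-- the action of `h` on the exterior algebra -/
noncomputable abbrev hE : ExteriorAlgebra F (TAG F J) →ₗ[F] ExteriorAlgebra F (TAG F J) :=
  Th (TAG.act (0 : F) 1 0)

theorem act_eq (x y z : F) : (TAG.act x y z : TAG F J →ₗ[F] TAG F J) =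
    x • TAG.act 1 0 0 + y • TAG.act 0 1 0 + z • TAG.act 0 0 1 := by
  ext v : 1
  ext <;>
  simp only [LinearMap.add_apply, LinearMap.smul_apply, TAG.pe_add, TAG.ph_add, TAG.pf_add,
    TAG.pb_add, TAG.pe_smul, TAG.ph_smul, TAG.pf_smul, TAG.pb_smul, TAG.pe_act, TAG.ph_act,
    TAG.pf_act, TAG.pb_act] <;> module

theorem Th_slAct (X : LieAlgebra.SpecialLinear.sl (Fin 2) F) (v : ExteriorAlgebra F (TAG F J)) :
    Th (TAG.slAct X) v = X.1 0 1 • eE F J v + X.1 0 0 • hE F J v + X.1 1 0 • fE F J v := by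
  unfold TAG.slAct
  rw [act_eq, Th_add, Th_add, Th_smul, Th_smul, Th_smul]

theorem no_zero {k : ℕ} (hno : ¬ TrivialIn F (TAG F J) TAG.slAct k) : ∀ v ∈ Zk F (TAG F J) k,
    eE F J v = 0 → fE F J v = 0 → hE F J v = 0 → v ∈ Bk F (TAG F J) k := by
  intro v hv he hf hh
  by_contra hB
  apply hno
  refine ⟨v, hv, hB, fun X => ?_⟩
  rw [Th_slAct, he, hf, hh]
  simp

theorem no_two {k : ℕ} (hno : ¬ AdjointIn F (TAG F J) TAG.slAct k) : ∀ v ∈ Zk F (TAG F J) k,
    eE F J v = 0 → fE F J (fE F J (fE F J v)) = 0 → hE F J v = (2 : F) • v →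
    v ∈ Bk F (TAG F J) k := by
  intro v hv he hf hh
  by_contra hB
  apply hno
  have H := isSl2_Th (TAG.isSl2_act (F := F) (J := J))
  have e1 : eE F J (fE F J v) = (2 : F) • v := by
    rw [H.ef, he, map_zero, hh, zero_add]
  have h1 : hE F J (fE F J v) = 0 := by
    rw [H.hf, hh, map_smul, sub_self]
  have e2 : eE F J (fE F J (fE F J v)) = (2 : F) • fE F J v := by
    rw [H.ef, e1, h1, map_smul, add_zero]
  have h2 : hE F J (fE F J (fE F J v)) = (-2 : F) • fE F J (fE F J v) := by
    rw [H.hf, h1, map_zero, zero_sub, neg_smul]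
  have hfv := Th_Zk (TAG.isDer_act (F := F) (J := J) 0 0 1) hv
  have hffv := Th_Zk (TAG.isDer_act (F := F) (J := J) 0 0 1) hfv
  -- the map on cycles
  let ψ : LieAlgebra.SpecialLinear.sl (Fin 2) F →ₗ[F] ExteriorAlgebra F (TAG F J) :=
    { toFun := fun X => X.1 0 1 • v - X.1 0 0 • fE F J v - (2⁻¹ * X.1 1 0) • fE F J (fE F J v)
      map_add' := by
        intro X Y
        have h1 : ∀ i j, (X + Y).1 i j = X.1 i j + Y.1 i j := fun _ _ => rfl
        simp only [h1]
        module
      map_smul' := by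
        intro c X
        have h1 : ∀ i j, (c • X).1 i j = c * X.1 i j := fun _ _ => rfl
        simp only [h1, RingHom.id_apply]
        module }
  have hψ : ∀ X, ψ X =
    X.1 0 1 • v - X.1 0 0 • fE F J v - (2⁻¹ * X.1 1 0) • fE F J (fE F J v) := fun X => rfl
  refine ⟨ψ, ?_, ?_, ?_⟩
  · intro X
    rw [hψ]
    exact Submodule.sub_mem _ (Submodule.sub_mem _ (Submodule.smul_mem _ _ hv)
      (Submodule.smul_mem _ _ hfv)) (Submodule.smul_mem _ _ hffv)
  · intro X hX1
    rw [hψ] at hX1
    have hX2 := Th_Bk (TAG.isDer_act (F := F) (J := J) 1 0 0) hX1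
    have hX3 := Th_Bk (TAG.isDer_act (F := F) (J := J) 1 0 0) hX2
    simp only [map_sub, map_smul, he, e1, e2, map_zero] at hX2 hX3
    have key : ∀ c : F, c • v ∈ Bk F (TAG F J) k → c = 0 := by
      intro c hc
      by_contra h0
      apply hB
      have := Submodule.smul_mem _ c⁻¹ hc
      rwa [smul_smul, inv_mul_cancel₀ h0, one_smul] at this
    have z0 : X.1 1 0 = 0 := by
      have := key (-2 * X.1 1 0) (by convert hX3 using 1; module)
      simpa using this
    rw [z0] at hX1 hX2
    have y0 : X.1 0 0 = 0 := by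
      have := key (-2 * X.1 0 0) (by convert hX2 using 1; module)
      simpa using this
    rw [y0] at hX1
    have x0 : X.1 0 1 = 0 := key _ (by convert hX1 using 1; module)
    apply Subtype.ext
    ext i j
    fin_cases i <;> fin_cases j
    · exact y0
    · exact x0
    · exact z0
    · show X.1 1 1 = 0
      rw [TAG.sl_11, y0, neg_zero]
  · intro X Y
    have h3 : ψ ⁅X, Y⁆ - Th (TAG.slAct X) (ψ Y) = 0 := by
      rw [hψ, hψ, Th_slAct, TAG.lie_00, TAG.lie_01, TAG.lie_10]
      simp only [map_sub, map_smul, he, e1, e2, h1, h2, hh, hf]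
      module
    rw [h3]
    exact Submodule.zero_mem _

end Pool.Agent.U691.HT
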