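import Pool.Agent.U691.HT.Jor

/-!
# The Tits–Allison–Gao Lie algebra of a Jordan algebra
-/

set_option autoImplicit false
set_option linter.unusedSectionVars false
set_option linter.unusedSimpArgs false

namespace Pool.Agent.U691.HT

open scoped TensorProduct

variable (F : Type) [Field F] (J : Type) [NonUnitalNonAssocCommRing J] [Module F J]
  [IsScalarTower F J J] [SMulCommClass F J J]

/-- `TAG(J) = sl₂ ⊗ J ⊕ B(J)`: the quadruple `((a, b, c), β)` stands for
`e ⊗ a + h ⊗ b + f ⊗ c + β`. -/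
def TAG : Type := (J × J × J) × BJ F J

noncomputable instance : AddCommGroup (TAG F J) := inferInstanceAs (AddCommGroup ((J × J × J) × BJ F J))

noncomputable instance : Module F (TAG F J) := inferInstanceAs (Module F ((J × J × J) × BJ F J))

namespace TAG

variable {F J}

/-- the component of `e` -/
def pe (x : TAG F J) : J := x.1.1
/-- the component of `h` -/
def ph (x : TAG F J) : J := x.1.2.1
/-- the component of `f` -/
def pf (x : TAG F J) : J := x.1.2.2
/-- the component in `B(J)` -/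
def pb (x : TAG F J) : BJ F J := x.2
/-- `e ⊗ a + h ⊗ b + f ⊗ c + β` -/
def mk (a b c : J) (β : BJ F J) : TAG F J := ((a, b, c), β)

@[ext] theorem ext {x y : TAG F J} (h1 : pe x = pe y) (h2 : ph x = ph y) (h3 : pf x = pf y)
    (h4 : pb x = pb y) : x = y := Prod.ext (Prod.ext h1 (Prod.ext h2 h3)) h4

@[simp] theorem pe_mk (a b c : J) (β : BJ F J) : pe (mk a b c β) = a := rfl
@[simp] theorem ph_mk (a b c : J) (β : BJ F J) : ph (mk a b c β) = b := rfl
@[simp] theorem pf_mk (a b c : J) (β : BJ F J) : pf (mk a b c β) = c := rfl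
@[simp] theorem pb_mk (a b c : J) (β : BJ F J) : pb (mk a b c β) = β := rfl
@[simp] theorem pe_add (x y : TAG F J) : pe (x + y) = pe x + pe y := rfl
@[simp] theorem ph_add (x y : TAG F J) : ph (x + y) = ph x + ph y := rfl
@[simp] theorem pf_add (x y : TAG F J) : pf (x + y) = pf x + pf y := rfl
@[simp] theorem pb_add (x y : TAG F J) : pb (x + y) = pb x + pb y := rfl
@[simp] theorem pe_sub (x y : TAG F J) : pe (x - y) = pe x - pe y := rfl
@[simp] theorem ph_sub (x y : TAG F J) : ph (x - y) = ph x - ph y := rfl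
@[simp] theorem pf_sub (x y : TAG F J) : pf (x - y) = pf x - pf y := rfl
@[simp] theorem pb_sub (x y : TAG F J) : pb (x - y) = pb x - pb y := rfl
@[simp] theorem pe_smul (c : F) (x : TAG F J) : pe (c • x) = c • pe x := rfl
@[simp] theorem ph_smul (c : F) (x : TAG F J) : ph (c • x) = c • ph x := rfl
@[simp] theorem pf_smul (c : F) (x : TAG F J) : pf (c • x) = c • pf x := rfl
@[simp] theorem pb_smul (c : F) (x : TAG F J) : pb (c • x) = c • pb x := rfl
@[simp] theorem pe_zero : pe (0 : TAG F J) = 0 := rfl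
@[simp] theorem ph_zero : ph (0 : TAG F J) = 0 := rfl
@[simp] theorem pf_zero : pf (0 : TAG F J) = 0 := rfl
@[simp] theorem pb_zero : pb (0 : TAG F J) = 0 := rfl

variable [CharZero F] [IsCommJordan J]

/-- The bracket of `TAG(J)`:
`[X ⊗ u, Y ⊗ v] = [X, Y] ⊗ uv + 2 tr(XY) u ∧ v`, `[β, X ⊗ w] = X ⊗ D_β(w)`,
`[u ∧ v, w ∧ z] = D_{u,v}(w) ∧ z + w ∧ D_{u,v}(z)`. -/
noncomputable instance : Bracket (TAG F J) (TAG F J) where
  bracket x y := mk
    ((2 : F) • (ph x * pe y - pe x * ph y) + Dm (pb x) (pe y) - Dm (pb y) (pe x))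
    (pe x * pf y - pf x * pe y + Dm (pb x) (ph y) - Dm (pb y) (ph x))
    ((2 : F) • (pf x * ph y - ph x * pf y) + Dm (pb x) (pf y) - Dm (pb y) (pf x))
    ((2 : F) • wdg F (pe x) (pf y) + (2 : F) • wdg F (pf x) (pe y) +
      (4 : F) • wdg F (ph x) (ph y) + brB (pb x) (pb y))

theorem pe_lie (x y : TAG F J) : pe ⁅x, y⁆ =
    (2 : F) • (ph x * pe y - pe x * ph y) + Dm (pb x) (pe y) - Dm (pb y) (pe x) := rfl

theorem ph_lie (x y : TAG F J) : ph ⁅x, y⁆ =
    pe x * pf y - pf x * pe y + Dm (pb x) (ph y) - Dm (pb y) (ph x) := rfl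

theorem pf_lie (x y : TAG F J) : pf ⁅x, y⁆ =
    (2 : F) • (pf x * ph y - ph x * pf y) + Dm (pb x) (pf y) - Dm (pb y) (pf x) := rfl

theorem pb_lie (x y : TAG F J) : pb ⁅x, y⁆ =
    (2 : F) • wdg F (pe x) (pf y) + (2 : F) • wdg F (pf x) (pe y) +
      (4 : F) • wdg F (ph x) (ph y) + brB (pb x) (pb y) := rfl

theorem brB_derB (D : J →ₗ[F] J) (hD : ∀ a b, D (a * b) = D a * b + a * D b) (β γ : BJ F J) :
    derB D hD (brB β γ) = brB (derB D hD β) γ + brB β (derB D hD γ) := by
  induction γ using BJ_ind with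
  | h1 u v =>
    simp only [brB_wdg, derB_wdg, map_add, Dm_derB, wdg_sub_left, wdg_sub_right]
    abel
  | h2 x y hx hy => simp only [map_add, hx, hy]; abel

theorem brB_jac (β γ δ : BJ F J) : brB β (brB γ δ) = brB (brB β γ) δ + brB γ (brB β δ) :=
  brB_derB _ (Dm_mul β) γ δ

theorem brB_self (β : BJ F J) : brB β β = 0 := by
  have h := brB_skew β β
  have h2 : (2 : F) • brB β β = 0 := by
    rw [two_smul]; nth_rw 2 [h]; abel
  exact (smul_eq_zero.1 h2).resolve_left two_ne_zero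

theorem brB_wdg_left (u v : J) (β : BJ F J) :
    brB (wdg F u v) β = - (wdg F (Dm β u) v + wdg F u (Dm β v)) := by
  rw [brB_skew, brB_wdg]

theorem leibniz_e (x y z : TAG F J) : pe ⁅x, ⁅y, z⁆⁆ = pe (⁅⁅x, y⁆, z⁆ + ⁅y, ⁅x, z⁆⁆) := by
  simp only [pe_lie, ph_lie, pf_lie, pb_lie, pe_add, map_add, map_sub, map_smul, Dm_wdg, Dm_brB,
    Dm_mul, DD_apply, mul_add, add_mul, mul_sub, sub_mul, smul_add, smul_sub,
    LinearMap.add_apply, LinearMap.smul_apply, mul_smul_comm, smul_mul_assoc, mul_comm]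
  module

theorem leibniz_h (x y z : TAG F J) : ph ⁅x, ⁅y, z⁆⁆ = ph (⁅⁅x, y⁆, z⁆ + ⁅y, ⁅x, z⁆⁆) := by
  simp only [pe_lie, ph_lie, pf_lie, pb_lie, ph_add, map_add, map_sub, map_smul, Dm_wdg, Dm_brB,
    Dm_mul, DD_apply, mul_add, add_mul, mul_sub, sub_mul, smul_add, smul_sub,
    LinearMap.add_apply, LinearMap.smul_apply, mul_smul_comm, smul_mul_assoc, mul_comm]
  module

theorem leibniz_f (x y z : TAG F J) : pf ⁅x, ⁅y, z⁆⁆ = pf (⁅⁅x, y⁆, z⁆ + ⁅y, ⁅x, z⁆⁆) := by
  simp only [pe_lie, ph_lie, pf_lie, pb_lie, pf_add, map_add, map_sub, map_smul, Dm_wdg, Dm_brB,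
    Dm_mul, DD_apply, mul_add, add_mul, mul_sub, sub_mul, smul_add, smul_sub,
    LinearMap.add_apply, LinearMap.smul_apply, mul_smul_comm, smul_mul_assoc, mul_comm]
  module

theorem leibniz_b (x y z : TAG F J) : pb ⁅x, ⁅y, z⁆⁆ = pb (⁅⁅x, y⁆, z⁆ + ⁅y, ⁅x, z⁆⁆) := by
  have r1 := wdg_mul (F := F) (pe x) (ph y) (pf z)
  have r2 := wdg_mul (F := F) (pe x) (pf y) (ph z)
  have r3 := wdg_mul (F := F) (ph x) (pe y) (pf z)
  have r4 := wdg_mul (F := F) (ph x) (pf y) (pe z)
  have r5 := wdg_mul (F := F) (pf x) (pe y) (ph z)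
  have r6 := wdg_mul (F := F) (pf x) (ph y) (pe z)
  have r7 := brB_jac (pb x) (pb y) (pb z)
  have s1 := wdg_swap (F := F) (pf y) (Dm (pb z) (pe x))
  have s2 := wdg_swap (F := F) (pe y) (Dm (pb z) (pf x))
  have s3 := wdg_swap (F := F) (ph y) (Dm (pb z) (ph x))
  simp only [mul_comm] at r1 r2 r3 r4 r5 r6
  simp only [pe_lie, ph_lie, pf_lie, pb_lie, pb_add, map_add, map_sub, map_smul, Dm_wdg, Dm_brB,
    Dm_mul, brB_wdg, brB_wdg_left, wdg_add_left, wdg_add_right, wdg_sub_left,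
    wdg_sub_right, wdg_smul_left, wdg_smul_right, mul_add, add_mul, mul_sub, sub_mul, smul_add,
    smul_sub, LinearMap.add_apply, LinearMap.smul_apply, mul_smul_comm, smul_mul_assoc, mul_comm]
  linear_combination (norm := module) (4 : F) • r1 - (4 : F) • r2 - (4 : F) • r3 + (4 : F) • r4 +
    (4 : F) • r5 - (4 : F) • r6 + r7 + (2 : F) • s1 + (2 : F) • s2 + (4 : F) • s3

noncomputable instance : LieRing (TAG F J) where
  add_lie x y z := by
    ext <;>
    simp only [pe_lie, ph_lie, pf_lie, pb_lie, pe_add, ph_add, pf_add, pb_add, map_add,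
      LinearMap.add_apply, add_mul, mul_add, wdg_add_left, wdg_add_right, smul_add, smul_sub] <;>
    abel
  lie_add x y z := by
    ext <;>
    simp only [pe_lie, ph_lie, pf_lie, pb_lie, pe_add, ph_add, pf_add, pb_add, map_add,
      LinearMap.add_apply, add_mul, mul_add, wdg_add_left, wdg_add_right, smul_add, smul_sub] <;>
    abel
  lie_self x := by
    ext
    · simp only [pe_lie, pe_zero, mul_comm, sub_self, smul_zero, zero_add]
    · simp only [ph_lie, ph_zero, mul_comm, sub_self, smul_zero, zero_add]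
    · simp only [pf_lie, pf_zero, mul_comm, sub_self, smul_zero, zero_add]
    · simp only [pb_lie, pb_zero, wdg_self, smul_zero, add_zero, brB_self]
      rw [wdg_swap (pf x) (pe x), smul_neg, add_neg_cancel]
  leibniz_lie x y z := by
    ext
    · exact leibniz_e x y z
    · exact leibniz_h x y z
    · exact leibniz_f x y z
    · exact leibniz_b x y z

noncomputable instance : LieAlgebra F (TAG F J) where
  lie_smul c x y := by
    ext <;>
    simp only [pe_lie, ph_lie, pf_lie, pb_lie, pe_smul, ph_smul, pf_smul, pb_smul, map_smul,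
      LinearMap.smul_apply, mul_smul_comm, smul_mul_assoc, wdg_smul_left, wdg_smul_right,
      smul_add, smul_sub, smul_comm c (2 : F), smul_comm c (4 : F)]

end TAG

end Pool.Agent.U691.HT
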